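import Pool.Agent.W723.WL.Iso

/-!
Arcs, and the boundary of the set of points that follow the discs.
-/

set_option autoImplicit false

open Filter Topology Metric Set

namespace Pool.Agent.W723.WL

noncomputable def cp (k : ℕ) (τ : ℝ) : ℂ := w k + (rb k : ℂ) * Complex.exp (τ * Complex.I)

theorem cp_cont (k : ℕ) : Continuous (cp k) := by
  unfold cp
  fun_prop

theorem cp_re (k : ℕ) (τ : ℝ) : (cp k τ).re = 3 + rb k * Real.cos τ := by
  unfold cp
  rw [Complex.add_re, Complex.re_ofReal_mul, Complex.exp_ofReal_mul_I_re, w_re]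

theorem cp_im (k : ℕ) (τ : ℝ) : (cp k τ).im = H k + rb k * Real.sin τ := by
  unfold cp
  rw [Complex.add_im, Complex.im_ofReal_mul, Complex.exp_ofReal_mul_I_im, w_im]

theorem rb_pos (k : ℕ) : 0 < rb k := by
  have := u_pos k
  unfold rb
  positivity

theorem cp_norm (k : ℕ) (τ : ℝ) : ‖cp k τ - w k‖ = rb k := by
  unfold cp
  rw [add_sub_cancel_left, norm_mul, Complex.norm_exp_ofReal_mul_I, Complex.norm_real,
    Real.norm_of_nonneg (rb_pos k).le, mul_one]

/-- points of the arc are in the basin -/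
theorem arc_At {k : ℕ} {x : ℂ} (h1 : ‖x - w k‖ = rb k)
    (h2 : ¬ (3 + rm k < x.re ∧ |x.im - H k| < u k)) : x ∈ At := by
  have hu := u_pos k
  have hu' := u_le k
  apply Q_At
  have h3 := re_le x k
  have h4 := im_le x k
  have h5 := le_abs_self (x.re - 3)
  unfold rb at h1
  refine Q_of_near (k := k) (by linarith) (by linarith) ?_ h2
  unfold rr
  linarith

theorem arc_mono {k : ℕ} {a b : ℝ} (h0 : 0 ≤ a) (hab : a ≤ b) (hb : b ≤ Real.pi)
    (h : 3 + rm k < (cp k b).re ∧ |(cp k b).im - H k| < u k) :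
    3 + rm k < (cp k a).re ∧ |(cp k a).im - H k| < u k := by
  have hrb := rb_pos k
  have hu := u_pos k
  rw [cp_re, cp_im] at *
  obtain ⟨h1, h2⟩ := h
  rw [add_sub_cancel_left] at *
  have h3 : 0 < Real.cos b := by
    by_contra hcon
    push Not at hcon
    have : rb k * Real.cos b ≤ 0 := mul_nonpos_of_nonneg_of_nonpos hrb.le hcon
    unfold rm at h1
    linarith
  have h4 : b < Real.pi / 2 := by
    by_contra hcon
    push Not at hcon
    have := Real.cos_nonpos_of_pi_div_two_le_of_le hcon (by linarith [Real.pi_pos])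
    linarith
  have h5 : Real.cos b ≤ Real.cos a := Real.cos_le_cos_of_nonneg_of_le_pi h0 hb hab
  have h6 : Real.sin a ≤ Real.sin b :=
    Real.sin_le_sin_of_le_of_le_pi_div_two (by linarith [Real.pi_pos]) h4.le hab
  have h7 : 0 ≤ Real.sin a := Real.sin_nonneg_of_nonneg_of_le_pi h0 (hab.trans hb)
  refine ⟨?_, ?_⟩
  · have : rb k * Real.cos b ≤ rb k * Real.cos a := mul_le_mul_of_nonneg_left h5 hrb.le
    linarith
  · rw [abs_of_nonneg (mul_nonneg hrb.le h7)]
    rw [abs_of_nonneg (mul_nonneg hrb.le (h7.trans h6))] at h2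
    have : rb k * Real.sin a ≤ rb k * Real.sin b := mul_le_mul_of_nonneg_left h6 hrb.le
    linarith

theorem arc_neg {k : ℕ} {a : ℝ}
    (h : 3 + rm k < (cp k (-a)).re ∧ |(cp k (-a)).im - H k| < u k) :
    3 + rm k < (cp k a).re ∧ |(cp k a).im - H k| < u k := by
  rw [cp_re, cp_im] at *
  rw [add_sub_cancel_left] at *
  rw [Real.cos_neg, Real.sin_neg, mul_neg, abs_neg] at h
  exact h

theorem arc_Cn {k : ℕ} {x : ℂ} (h1 : ‖x - w k‖ = rb k)
    (h2 : ¬ (3 + rm k < x.re ∧ |x.im - H k| < u k)) : Cn k x := by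
  have hrb := rb_pos k
  set θ : ℝ := (x - w k).arg with hθ
  have hx : x = cp k θ := by
    unfold cp
    rw [← h1, hθ, Complex.norm_mul_exp_arg_mul_I]
    ring
  have hθ1 : -Real.pi < θ := Complex.neg_pi_lt_arg _
  have hθ2 : θ ≤ Real.pi := Complex.arg_le_pi _
  have hleft : ∀ τ : ℝ, Real.cos τ = -1 → Real.sin τ = 0 → cp k τ = w k - rb k := by
    intro τ hc hs
    apply Complex.ext
    · rw [cp_re, hc, (left_pt k (rb k)).2]; ring
    · rw [cp_im, hs, (left_pt k (rb k)).1]; ring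
  rcases le_total 0 θ with h0 | h0
  · refine ⟨cp k '' Icc θ Real.pi, isPreconnected_Icc.image _ (cp_cont k).continuousOn, ?_, ?_,
      ?_, ?_⟩
    · rintro _ ⟨τ, ⟨ht1, ht2⟩, rfl⟩
      refine arc_At (cp_norm k τ) fun hcon => h2 ?_
      rw [hx]
      exact arc_mono h0 ht1 ht2 hcon
    · rintro _ ⟨τ, -, rfl⟩
      rw [cp_norm]
      exact rb_le_rd k
    · exact ⟨Real.pi, ⟨hθ2, le_rfl⟩, hleft _ Real.cos_pi Real.sin_pi⟩
    · exact ⟨θ, ⟨le_rfl, hθ2⟩, hx.symm⟩
  · refine ⟨cp k '' Icc (-Real.pi) θ, isPreconnected_Icc.image _ (cp_cont k).continuousOn, ?_, ?_,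
      ?_, ?_⟩
    · rintro _ ⟨τ, ⟨ht1, ht2⟩, rfl⟩
      refine arc_At (cp_norm k τ) fun hcon => h2 ?_
      rw [hx]
      apply arc_neg
      refine arc_mono (b := -τ) (by linarith) (by linarith) (by linarith) ?_
      apply arc_neg
      rwa [neg_neg]
    · rintro _ ⟨τ, -, rfl⟩
      rw [cp_norm]
      exact rb_le_rd k
    · refine ⟨-Real.pi, ⟨le_rfl, hθ1.le⟩, hleft _ ?_ ?_⟩
      · rw [Real.cos_neg, Real.cos_pi]
      · rw [Real.sin_neg, Real.sin_pi, neg_zero]
    · exact ⟨θ, ⟨hθ1.le, le_rfl⟩, hx.symm⟩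

/-- a point of the arc near a given point of the ring -/
theorem exists_arc {k : ℕ} {c : ℂ} (h1 : 1 + u k / 2 ≤ ‖c - w k‖) (h2 : ‖c - w k‖ ≤ 1 + 9 * u k / 4) :
    ∃ a : ℂ, ‖a - w k‖ = rb k ∧ ¬ (3 + rm k < a.re ∧ |a.im - H k| < u k) ∧ ‖a - c‖ ≤ 4 * u k := by
  have hu := u_pos k
  have hu' := u_le k
  have hrb := rb_pos k
  set ρ : ℝ := ‖c - w k‖ with hρ
  have hρ0 : 0 < ρ := by linarith
  set a0 : ℂ := w k + ((rb k / ρ : ℝ) : ℂ) * (c - w k) with ha0
  have hn0 : ‖a0 - w k‖ = rb k := by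
    rw [ha0, add_sub_cancel_left, norm_mul, Complex.norm_real, Real.norm_of_nonneg (by positivity),
      ← hρ]
    field_simp
  have hd0 : ‖a0 - c‖ ≤ u k := by
    have e1 : a0 - c = ((rb k / ρ - 1 : ℝ) : ℂ) * (c - w k) := by
      rw [ha0]
      push_cast
      ring
    have e2 : rb k / ρ - 1 = (rb k - ρ) / ρ := by
      field_simp
    rw [e1, norm_mul, Complex.norm_real, e2, Real.norm_eq_abs, abs_div, abs_of_pos hρ0, ← hρ,
      div_mul_cancel₀ _ hρ0.ne', abs_le]
    unfold rb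
    constructor <;> linarith
  by_cases hch : 3 + rm k < a0.re ∧ |a0.im - H k| < u k
  · -- move to the end of the arc
    have hsq : 0 ≤ rb k ^ 2 - u k ^ 2 := by
      unfold rb
      nlinarith
    set v : ℝ := Real.sqrt (rb k ^ 2 - u k ^ 2) with hv
    have hv2 : v ^ 2 = rb k ^ 2 - u k ^ 2 := Real.sq_sqrt hsq
    have hv0 : 0 ≤ v := Real.sqrt_nonneg _
    have hv1 : rb k - u k ≤ v := by
      apply Real.le_sqrt_of_sq_le
      have : u k ≤ rb k := by unfold rb; linarith
      nlinarith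
    have hv3 : v ≤ rb k := by
      rw [hv]
      rw [Real.sqrt_le_left hrb.le]
      nlinarith
    obtain ⟨h3, h4⟩ := hch
    -- coordinates of a0
    have h5 : (a0.re - 3) ^ 2 + (a0.im - H k) ^ 2 = rb k ^ 2 := by
      rw [← hn0, ← Complex.normSq_eq_norm_sq, Complex.normSq_apply]
      simp only [Complex.sub_re, Complex.sub_im, w_re, w_im]
      ring
    have h6 : 0 ≤ a0.re - 3 := by unfold rm at h3; linarith
    have h7 : a0.re - 3 ≤ rb k := by
      nlinarith [sq_nonneg (a0.im - H k)]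
    have h8 : v ≤ a0.re - 3 := by
      have h9 : (a0.im - H k) ^ 2 ≤ u k ^ 2 := by
        rw [← sq_abs]
        have := abs_nonneg (a0.im - H k)
        nlinarith
      have h10 : v ^ 2 ≤ (a0.re - 3) ^ 2 := by rw [hv2]; linarith
      exact le_of_sq_le_sq h10 h6
    refine ⟨⟨3 + v, H k + u k⟩, ?_, ?_, ?_⟩
    · have : ‖(⟨3 + v, H k + u k⟩ : ℂ) - w k‖ ^ 2 = rb k ^ 2 := by
        rw [← Complex.normSq_eq_norm_sq, Complex.normSq_apply]
        simp only [Complex.sub_re, Complex.sub_im, w_re, w_im]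
        nlinarith
      exact (sq_eq_sq₀ (norm_nonneg _) hrb.le).1 this
    · rintro ⟨-, h9⟩
      have h10 : |(H k + u k) - H k| < u k := h9
      rw [add_sub_cancel_left, abs_of_pos hu] at h10
      exact lt_irrefl _ h10
    · have h9 : ‖(⟨3 + v, H k + u k⟩ : ℂ) - a0‖ ≤ 3 * u k := by
        refine (Complex.norm_le_abs_re_add_abs_im _).trans ?_
        simp only [Complex.sub_re, Complex.sub_im]
        have h10 : |3 + v - a0.re| ≤ u k := by
          rw [abs_le]
          constructor <;> linarith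
        have h11 : |H k + u k - a0.im| ≤ 2 * u k := by
          obtain ⟨h12, h13⟩ := abs_lt.1 h4
          rw [abs_le]
          constructor <;> linarith
        linarith
      calc ‖(⟨3 + v, H k + u k⟩ : ℂ) - c‖ = ‖((⟨3 + v, H k + u k⟩ : ℂ) - a0) + (a0 - c)‖ := by
            congr 1; ring
        _ ≤ _ := norm_add_le _ _
        _ ≤ _ := by linarith
  · exact ⟨a0, hn0, hch, by linarith⟩

/-- the boundary of the set of points following the discs lies in the closure of the component -/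
theorem frontier_sub {z : ℂ} (hz : z ∈ S) (hz' : z ∉ interior S) : z ∈ closure U := by
  rw [Metric.mem_closure_iff]
  intro ρ hρ
  obtain ⟨N, hN⟩ := exists_pow_lt_of_lt_one (show (0 : ℝ) < ρ / 2 by positivity)
    (show (1 / 2 : ℝ) < 1 by norm_num)
  -- open neighbourhood
  have ev : ∀ᶠ y in 𝓝 z, ∀ k ∈ Finset.range (N + 1), ‖F^[k] y - w k‖ < rt k := by
    rw [Filter.eventually_all_finset]
    intro k _
    exact ((iter_cont k).sub continuous_const).norm.continuousAt.eventually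
      (gt_mem_nhds (S_strict hz k))
  have ev2 : ∀ᶠ y in 𝓝 z, ‖y - z‖ < ρ / 2 := by
    filter_upwards [ball_mem_nhds z (show 0 < ρ / 2 by positivity)] with y hy
    rwa [mem_ball_iff_norm] at hy
  have hfr : ∃ᶠ y in 𝓝 z, y ∉ S := by
    intro hcon
    apply hz'
    rw [mem_interior_iff_mem_nhds]
    filter_upwards [hcon] with y hy
    simpa using hy
  obtain ⟨z', hz'S, hz'N, hz'd⟩ := (hfr.and_eventually (ev.and ev2)).exists
  have hex : ∃ k, ¬ ‖F^[k] z' - w k‖ ≤ rt k := by
    by_contra hcon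
    push Not at hcon
    exact hz'S hcon
  classical
  set k := Nat.find hex with hk
  have hk1 : ¬ ‖F^[k] z' - w k‖ ≤ rt k := Nat.find_spec hex
  have hk2 : ∀ j, j < k → ‖F^[j] z' - w j‖ ≤ rt j := by
    intro j hj
    have := Nat.find_min hex hj
    push Not at this
    exact this
  have hkN : N < k := by
    by_contra hcon
    push Not at hcon
    exact hk1 (hz'N k (Finset.mem_range.2 (by omega))).le
  obtain ⟨m, hm⟩ : ∃ m, k = m + 1 := ⟨k - 1, by omega⟩
  rw [hm] at hk1 hk2 hkN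
  push Not at hk1
  have hu := u_pos m
  have he := e_le m
  have hc1 := hk2 m (by omega)
  have hc2 := F_G (hc1.trans (rt_le_ra m))
  have hc3 : ‖F^[m + 1] z' - w (m + 1)‖ ≤ rt m + e m := by
    rw [Function.iterate_succ_apply', w_succ]
    calc ‖F (F^[m] z') - (w m + 10 * Complex.I)‖
        = ‖(F (F^[m] z') - (F^[m] z' + 10 * Complex.I)) + (F^[m] z' - w m)‖ := by congr 1; ring
      _ ≤ _ := norm_add_le _ _
      _ ≤ _ := by linarith
  have husucc := u_succ m
  obtain ⟨a, ha1, ha2, ha3⟩ := exists_arc (k := m + 1) (c := F^[m + 1] z')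
    (by unfold rt at hk1; linarith)
    (by unfold rt at hc3; linarith)
  obtain ⟨y, hy1, hy2, hy3⟩ := chain (m + 1) a (arc_Cn ha1 ha2)
  refine ⟨y, hy1, ?_⟩
  have h4 := iter_dist (m + 1) hy3 hk2
  rw [hy2] at h4
  have h5 : ‖y - z'‖ ≤ (1 / 2) ^ (m + 1) := by
    refine h4.trans ?_
    calc (2 : ℝ) ^ (m + 1) * ‖a - F^[m + 1] z'‖ ≤ 2 ^ (m + 1) * (4 * u (m + 1)) := by gcongr
      _ = 2 ^ (m + 1) * (1 / 4) ^ (m + 1) := by rw [u_eq]
      _ = (1 / 2) ^ (m + 1) := by
          rw [← mul_pow]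
          norm_num
  have h6 : (1 / 2 : ℝ) ^ (m + 1) ≤ (1 / 2) ^ N :=
    pow_le_pow_of_le_one (by norm_num) (by norm_num) (by omega)
  rw [dist_eq_norm]
  calc ‖z - y‖ = ‖(z' - y) - (z' - z)‖ := by congr 1; ring
    _ ≤ ‖z' - y‖ + ‖z' - z‖ := norm_sub_le _ _
    _ < ρ := by
      rw [norm_sub_rev z' y]
      linarith

/-- the complementary component around the first disc lies in the set of equicontinuity -/
theorem comp_sub : connectedComponentIn (closure U)ᶜ (w 0) ⊆ Fat F := by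
  have hw : w 0 ∈ (closure U)ᶜ := interior_S_closure w0_interior
  have : connectedComponentIn (closure U)ᶜ (w 0) ⊆ interior S := by
    refine IsPreconnected.subset_of_closure_inter_subset isPreconnected_connectedComponentIn
      isOpen_interior ⟨w 0, mem_connectedComponentIn hw, w0_interior⟩ ?_
    rintro z ⟨hz1, hz2⟩
    by_contra hcon
    have h1 : z ∈ S := (closure_minimal interior_subset isClosed_S) hz1
    exact connectedComponentIn_subset _ _ hz2 (frontier_sub h1 hcon)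
  exact this.trans interior_S_Fat

end Pool.Agent.W723.WL
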