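import Pool.Agent.Helper240.ZFM.Q5b

/-!
Uniform approximation by entire functions on closed subsets of a half plane, for targets
that vanish far away.
-/

set_option autoImplicit false

open Filter Topology Metric Set Polynomial

namespace Pool.Agent.W723.WL

/-- the entire replacement of `1 / (z - A)` -/
theorem exists_q (A : ℝ) (N : ℝ) : ∃ q : ℂ → ℂ, Differentiable ℂ q ∧
    ∀ z : ℂ, z ≠ (A : ℂ) → q z = (1 - Complex.exp (N * (z - A))) * (z - A)⁻¹ := by
  set F : ℂ → ℂ := fun z => 1 - Complex.exp (N * (z - A)) with hF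
  have hFd : Differentiable ℂ F := by
    rw [hF]
    fun_prop
  refine ⟨dslope F A, ?_, ?_⟩
  · rw [← differentiableOn_univ]
    rw [Complex.differentiableOn_dslope (by simp)]
    exact hFd.differentiableOn
  · intro z hz
    rw [dslope_of_ne _ hz, slope_def_field]
    simp only [hF, sub_self, mul_zero, Complex.exp_zero, sub_zero]
    rw [div_eq_mul_inv]

theorem appr (X : Set ℂ) (hX : IsClosed X) (A : ℝ) (hA : ∀ z ∈ X, z.re ≤ A - 1)
    (hconn : IsConnected (Xᶜ \ {(A : ℂ)})) (t : ℂ → ℂ) (ht : ContinuousOn t X)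
    (hd : DifferentiableOn ℂ t (interior X)) (R₀ : ℝ) (h0 : ∀ z ∈ X, R₀ ≤ ‖z‖ → t z = 0)
    (ε : ℝ) (hε : 0 < ε) :
    ∃ g : ℂ → ℂ, Differentiable ℂ g ∧ ∀ z ∈ X, ‖g z - t z‖ < ε := by
  classical
  have hAX : (A : ℂ) ∉ X := fun h => by
    have := hA _ h
    simp at this
    linarith
  -- the compact set
  set K : Set ℂ := {ζ | ζ = 0 ∨ (A : ℂ) + ζ⁻¹ ∈ X} with hK
  have hXn : ∀ z ∈ X, 1 ≤ ‖z - A‖ := by
    intro z hz
    have h1 := hA z hz
    have h2 := Complex.abs_re_le_norm (z - A)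
    simp only [Complex.sub_re, Complex.ofReal_re] at h2
    have h3 := neg_abs_le (z.re - A)
    linarith
  have hKb : ∀ ζ ∈ K, ‖ζ‖ ≤ 1 := by
    rintro ζ (rfl | h)
    · simp
    · have := hXn _ h
      rw [add_sub_cancel_left, norm_inv] at this
      by_contra hcon
      push Not at hcon
      have h2 : ‖ζ‖⁻¹ < 1 := inv_lt_one_of_one_lt₀ hcon
      linarith
  have hinv : ContinuousOn (fun ζ : ℂ => (A : ℂ) + ζ⁻¹) {0}ᶜ := by
    refine continuousOn_const.add (ContinuousOn.inv₀ continuousOn_id ?_)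
    intro x hx
    exact hx
  have hKo : IsOpen Kᶜ := by
    have : Kᶜ = {0}ᶜ ∩ (fun ζ : ℂ => (A : ℂ) + ζ⁻¹) ⁻¹' Xᶜ := by
      ext ζ
      simp [hK]
    rw [this]
    exact hinv.isOpen_inter_preimage isOpen_compl_singleton hX.isOpen_compl
  have hKc : IsCompact K := by
    refine Metric.isCompact_of_isClosed_isBounded ⟨hKo⟩ ?_
    refine (Metric.isBounded_closedBall (x := (0 : ℂ)) (r := 1)).subset ?_
    intro ζ hζ
    simpa using hKb ζ hζ
  have hKconn : IsConnected Kᶜ := by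
    have : Kᶜ = (fun z : ℂ => (z - A)⁻¹) '' (Xᶜ \ {(A : ℂ)}) := by
      ext ζ
      constructor
      · intro hζ
        have h1 : ζ ≠ 0 := fun h => hζ (Or.inl h)
        have h2 : (A : ℂ) + ζ⁻¹ ∉ X := fun h => hζ (Or.inr h)
        refine ⟨(A : ℂ) + ζ⁻¹, ⟨h2, ?_⟩, by simp⟩
        simpa using h1
      · rintro ⟨z, ⟨h1, h2⟩, rfl⟩
        have h3 : z - A ≠ 0 := sub_ne_zero.2 h2
        rintro (h | h)
        · exact h3 (by simpa using h)
        · apply h1
          simpa using h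
    rw [this]
    refine hconn.image _ ?_
    refine ContinuousOn.inv₀ (by fun_prop) ?_
    intro z hz
    exact sub_ne_zero.2 hz.2
  set T : ℂ → ℂ := fun ζ => if ζ = 0 then 0 else t (A + ζ⁻¹) with hT
  have hT0 : ∀ᶠ ζ in 𝓝[K] (0 : ℂ), T ζ = 0 := by
    -- near zero
    set ρ : ℝ := (|A| + |R₀| + 1)⁻¹ with hρ
    have hρ0 : 0 < ρ := by positivity
    filter_upwards [mem_nhdsWithin_of_mem_nhds (ball_mem_nhds (0 : ℂ) hρ0), self_mem_nhdsWithin]
      with ζ h1 h2
    by_cases hζ : ζ = 0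
    · simp [hT, hζ]
    · simp only [hT, hζ, if_false]
      have h3 : (A : ℂ) + ζ⁻¹ ∈ X := h2.resolve_left hζ
      refine h0 _ h3 ?_
      rw [mem_ball_zero_iff] at h1
      have h4 : |A| + |R₀| + 1 < ‖ζ⁻¹‖ := by
        rw [norm_inv]
        rw [hρ] at h1
        exact (lt_inv_comm₀ (by positivity) (norm_pos_iff.2 hζ)).2 h1 |>.trans_le le_rfl
      have h5 : ‖ζ⁻¹‖ ≤ ‖(A : ℂ) + ζ⁻¹‖ + ‖(A : ℂ)‖ := by
        calc ‖ζ⁻¹‖ = ‖((A : ℂ) + ζ⁻¹) - A‖ := by congr 1; ring
          _ ≤ _ := norm_sub_le _ _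
      have h6 : ‖(A : ℂ)‖ = |A| := by simp
      have h7 := le_abs_self R₀
      linarith
  have hTc : ContinuousOn T K := by
    intro ζ hζ
    by_cases hζ0 : ζ = 0
    · subst hζ0
      have : T 0 = 0 := by simp [hT]
      rw [ContinuousWithinAt, this]
      exact (tendsto_congr' hT0).2 tendsto_const_nhds
    · have h3 : (A : ℂ) + ζ⁻¹ ∈ X := hζ.resolve_left hζ0
      have e1 : T =ᶠ[𝓝[K] ζ] fun ζ => t (A + ζ⁻¹) := by
        filter_upwards [mem_nhdsWithin_of_mem_nhds (isOpen_compl_singleton.mem_nhds hζ0)]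
          with x hx
        simp only [hT]
        rw [if_neg (show x ≠ 0 from hx)]
      have e2 : T ζ = t (A + ζ⁻¹) := by simp [hT, hζ0]
      rw [ContinuousWithinAt, tendsto_congr' e1, e2]
      have c1 : ContinuousWithinAt (fun ζ : ℂ => (A : ℂ) + ζ⁻¹) (K ∩ {0}ᶜ) ζ :=
        (hinv ζ hζ0).mono inter_subset_right
      have c2 : ContinuousWithinAt (fun ζ : ℂ => t (A + ζ⁻¹)) (K ∩ {0}ᶜ) ζ := by
        refine ContinuousWithinAt.comp (g := t) (t := X) (ht _ h3) c1 ?_
        rintro x ⟨hx1, hx2⟩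
        exact hx1.resolve_left hx2
      have c3 : 𝓝[K ∩ {0}ᶜ] ζ = 𝓝[K] ζ :=
        nhdsWithin_inter_of_mem' (mem_nhdsWithin_of_mem_nhds (isOpen_compl_singleton.mem_nhds hζ0))
      rw [ContinuousWithinAt, c3] at c2
      exact c2
  have hTd : DifferentiableOn ℂ T (interior K) := by
    intro ζ hζ
    have hζ0 : ζ ≠ 0 := by
      rintro rfl
      rw [mem_interior_iff_mem_nhds, Metric.mem_nhds_iff] at hζ
      obtain ⟨r, hr, hs⟩ := hζ
      have h1 : ((r / 2 : ℝ) : ℂ) ∈ K := hs (by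
        rw [mem_ball_zero_iff, Complex.norm_real, Real.norm_of_nonneg (by positivity)]
        linarith)
      rcases h1 with h1 | h1
      · rw [Complex.ofReal_eq_zero] at h1
        linarith
      · have h2 := hA _ h1
        rw [← Complex.ofReal_inv] at h2
        simp only [Complex.add_re, Complex.ofReal_re] at h2
        have : 0 < (r / 2)⁻¹ := by positivity
        linarith
    have h3 : (A : ℂ) + ζ⁻¹ ∈ interior X := by
      rw [mem_interior]
      set W : Set ℂ := {(A : ℂ)}ᶜ ∩ (fun z : ℂ => (z - A)⁻¹) ⁻¹' (interior K) with hW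
      have hWo : IsOpen W := by
        refine ContinuousOn.isOpen_inter_preimage ?_ isOpen_compl_singleton isOpen_interior
        refine ContinuousOn.inv₀ (by fun_prop) ?_
        intro z hz
        exact sub_ne_zero.2 hz
      refine ⟨W, ?_, hWo, ?_⟩
      · rintro z ⟨hz1, hz2⟩
        have h4 : (z - A)⁻¹ ∈ K := interior_subset hz2
        have h5 : z - A ≠ 0 := sub_ne_zero.2 hz1
        rcases h4 with h4 | h4
        · exact absurd (inv_eq_zero.1 h4) h5
        · simpa using h4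
      · refine ⟨?_, ?_⟩
        · simpa using hζ0
        · simpa using hζ
    have h4 : DifferentiableAt ℂ t (A + ζ⁻¹) :=
      (hd _ h3).differentiableAt (isOpen_interior.mem_nhds h3)
    have h5 : DifferentiableAt ℂ (fun ζ : ℂ => t (A + ζ⁻¹)) ζ := by
      refine DifferentiableAt.comp (g := t) ζ h4 ?_
      exact (differentiableAt_const _).add (differentiableAt_id.inv hζ0)
    have h6 : T =ᶠ[𝓝 ζ] fun ζ => t (A + ζ⁻¹) := by
      filter_upwards [isOpen_compl_singleton.mem_nhds hζ0] with x hx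
      simp only [hT]
      rw [if_neg (show x ≠ 0 from hx)]
    exact (h6.differentiableAt_iff.2 h5).differentiableWithinAt
  obtain ⟨P, hP⟩ := ZFM.J_q5b.mergelyan hKc hKconn T hTc hTd (ε / 2) (by positivity)
  -- uniform continuity of the polynomial
  have huc : UniformContinuousOn (fun z => P.eval z) (closedBall (0 : ℂ) 2) :=
    (isCompact_closedBall (0 : ℂ) 2).uniformContinuousOn_of_continuous
      (by fun_prop)
  rw [Metric.uniformContinuousOn_iff] at huc
  obtain ⟨δ, hδ, hu⟩ := huc (ε / 2) (by positivity)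
  -- choose N
  obtain ⟨N, hN0, hN⟩ : ∃ N : ℝ, 0 ≤ N ∧ Real.exp (-N) < min δ 1 := by
    have h1 : Tendsto (fun N : ℝ => Real.exp (-N)) atTop (𝓝 0) := Real.tendsto_exp_neg_atTop_nhds_zero
    have h2 := h1.eventually (gt_mem_nhds (show (0 : ℝ) < min δ 1 by positivity))
    obtain ⟨N, h3, h4⟩ := (h2.and (eventually_ge_atTop 0)).exists
    exact ⟨N, h4, h3⟩
  obtain ⟨q, hq1, hq2⟩ := exists_q A N
  refine ⟨fun z => P.eval (q z), ?_, ?_⟩
  · exact (Polynomial.differentiable P).comp hq1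
  · intro z hz
    have hzA : z ≠ A := fun h => hAX (h ▸ hz)
    have hzA' : z - A ≠ 0 := sub_ne_zero.2 hzA
    set ζ : ℂ := (z - A)⁻¹ with hζ
    have hζK : ζ ∈ K := by
      right
      rw [hζ, inv_inv]
      simpa using hz
    have hζ0 : ζ ≠ 0 := inv_ne_zero hzA'
    have hTζ : T ζ = t z := by
      simp only [hT]
      rw [if_neg hζ0, hζ, inv_inv]
      congr 1
      ring
    have h1 := hP ζ hζK
    rw [hTζ] at h1
    have hζ1 : ‖ζ‖ ≤ 1 := hKb ζ hζK
    have h2 : ‖q z - ζ‖ ≤ Real.exp (-N) := by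
      rw [hq2 z hzA, ← hζ]
      have : (1 - Complex.exp (N * (z - A))) * ζ - ζ = - (Complex.exp (N * (z - A)) * ζ) := by ring
      rw [this, norm_neg, norm_mul, Complex.norm_exp]
      have h3 : ((N : ℂ) * (z - A)).re ≤ -N := by
        simp only [Complex.mul_re, Complex.ofReal_re, Complex.sub_re, Complex.ofReal_im,
          Complex.sub_im, zero_mul, sub_zero]
        have := hA z hz
        nlinarith
      calc Real.exp ((N : ℂ) * (z - A)).re * ‖ζ‖ ≤ Real.exp (-N) * 1 := by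
            gcongr
        _ = _ := mul_one _
    have h3 : ‖q z - ζ‖ < δ := h2.trans_lt (hN.trans_le (min_le_left _ _))
    have h4 : ‖q z - ζ‖ < 1 := h2.trans_lt (hN.trans_le (min_le_right _ _))
    have h5 : ‖q z‖ ≤ 2 := by
      have := norm_add_le (q z - ζ) ζ
      rw [sub_add_cancel] at this
      linarith
    have h6 := hu (q z) (by simpa using h5) ζ (by simpa using hζ1.trans (by norm_num))
      (by rw [dist_eq_norm]; exact h3)
    rw [dist_eq_norm] at h6
    calc ‖P.eval (q z) - t z‖ = ‖(P.eval (q z) - P.eval ζ) + (P.eval ζ - t z)‖ := by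
          congr 1; ring
      _ ≤ _ := norm_add_le _ _
      _ < ε / 2 + ε / 2 := add_lt_add h6 h1
      _ = ε := by ring

end Pool.Agent.W723.WL
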