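import Pool.Agent.W723.WL.Geom

/-!
The complement of the approximation set is connected.
-/

set_option autoImplicit false

open Filter Topology Metric Set

namespace Pool.Agent.W723.WL

/-- slit annulus -/
def An (k : ℕ) : Set ℂ :=
  {z | ra k < ‖z - w k‖ ∧ ‖z - w k‖ < rr k ∧ z - w k ∈ Complex.slitPlane}

theorem An_eq (k : ℕ) : An k =
    (fun p : ℝ × ℝ => w k + p.1 * Complex.exp (p.2 * Complex.I)) ''
      (Ioo (ra k) (rr k) ×ˢ Ioo (-Real.pi) Real.pi) := by
  have h0 := u_pos k
  have hra : 0 < ra k := by unfold ra; positivity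
  ext z
  constructor
  · rintro ⟨h1, h2, h3⟩
    rw [Complex.mem_slitPlane_iff_arg] at h3
    refine ⟨(‖z - w k‖, (z - w k).arg), ⟨⟨h1, h2⟩, ⟨Complex.neg_pi_lt_arg _, ?_⟩⟩, ?_⟩
    · exact lt_of_le_of_ne (Complex.arg_le_pi _) h3.1
    · show w k + (‖z - w k‖ : ℂ) * Complex.exp ((z - w k).arg * Complex.I) = z
      rw [Complex.norm_mul_exp_arg_mul_I]
      ring
  · rintro ⟨⟨ρ, θ⟩, ⟨⟨h1, h2⟩, ⟨h3, h4⟩⟩, rfl⟩
    simp only at h1 h2 h3 h4 ⊢
    have hρ : 0 < ρ := hra.trans h1
    have h5 : ‖(ρ : ℂ) * Complex.exp (θ * Complex.I)‖ = ρ := by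
      rw [norm_mul, Complex.norm_exp_ofReal_mul_I, Complex.norm_real, Real.norm_of_nonneg hρ.le,
        mul_one]
    refine ⟨?_, ?_, ?_⟩
    · rw [add_sub_cancel_left, h5]; exact h1
    · rw [add_sub_cancel_left, h5]; exact h2
    · rw [add_sub_cancel_left, Complex.mem_slitPlane_iff_arg]
      rw [Complex.arg_real_mul _ hρ, Complex.arg_exp_mul_I,
        (toIocMod_eq_self Real.two_pi_pos).2 ⟨h3, by linarith⟩]
      exact ⟨h4.ne, by
          intro h
          rw [h, norm_zero] at h5
          linarith⟩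

theorem An_pre (k : ℕ) : IsPreconnected (An k) := by
  rw [An_eq]
  refine IsPreconnected.image ?_ _ ?_
  · exact isPreconnected_Ioo.prod isPreconnected_Ioo
  · apply Continuous.continuousOn
    fun_prop

def Xs (k : ℕ) : Set ℂ := Y k ∪ (J k ∪ G k)

noncomputable def Ak (k : ℕ) : ℝ := 10 * k + 10

theorem isClosed_Xs (k : ℕ) : IsClosed (Xs k) :=
  (isClosed_Y k).union ((isClosed_J k).union (isClosed_G k))

theorem GJ_re {k : ℕ} {z : ℂ} (hz : z ∈ J k ∪ G k) : z.re ≤ 3 + ra k := by
  have h0 := u_pos k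
  rcases hz with hz | hz
  · have := hz.2.2
    unfold ra at *
    linarith
  · have h1 := re_le z k
    have h2 := le_abs_self (z.re - 3)
    have h3 : ‖z - w k‖ ≤ ra k := hz
    linarith

theorem Xs_re {k : ℕ} {z : ℂ} (hz : z ∈ Xs k) : z.re ≤ Ak k - 1 := by
  have hk : (0 : ℝ) ≤ k := Nat.cast_nonneg k
  have h0 := u_le k
  unfold Ak
  rcases hz with ⟨hz | hz, -⟩ | hz
  · have : z.re ≤ 7 := hz
    linarith
  · have : z.re ≤ 10 * k + 7 := hz.1
    linarith
  · have h1 := GJ_re hz
    unfold ra at h1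
    linarith

def C1 (k : ℕ) : Set ℂ := {z | 10 * (k : ℝ) + 7 < z.re ∧ 0 < z.im}
def C2 (k : ℕ) : Set ℂ := {z | 10 * (k : ℝ) + 7 < z.re ∧ z.im < 0}
def C3 (k : ℕ) : Set ℂ := {z | 10 * (k : ℝ) + 7 < z.re ∧ z.re < Ak k}
def C4 (k : ℕ) : Set ℂ := {z | Ak k < z.re}
def C5 (k : ℕ) : Set ℂ := {z | 7 < z.re ∧ 10 * (k : ℝ) + 5 < z.im}
def C6 (k : ℕ) : Set ℂ := {z | 7 < z.re ∧ z.im < -(10 * (k : ℝ) + 5)}
def C7 (k : ℕ) : Set ℂ := {z | 3 + rm k < z.re ∧ |z.im - H k| < u k}

theorem pre_re_im (a b : ℝ) : IsPreconnected {z : ℂ | a < z.re ∧ b < z.im} :=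
  ((convex_halfSpace_re_gt a).inter (convex_halfSpace_im_gt b)).isPreconnected

theorem pre_re_im' (a b : ℝ) : IsPreconnected {z : ℂ | a < z.re ∧ z.im < b} :=
  ((convex_halfSpace_re_gt a).inter (convex_halfSpace_im_lt b)).isPreconnected

theorem pre_re_re (a b : ℝ) : IsPreconnected {z : ℂ | a < z.re ∧ z.re < b} :=
  ((convex_halfSpace_re_gt a).inter (convex_halfSpace_re_lt b)).isPreconnected

theorem C7_pre (k : ℕ) : IsPreconnected (C7 k) := by
  have : C7 k = {z : ℂ | 3 + rm k < z.re} ∩ ({z : ℂ | H k - u k < z.im} ∩ {z : ℂ | z.im < H k + u k}) := by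
    ext z
    simp only [C7, mem_ofPred_eq, mem_inter_iff, abs_lt]
    constructor
    · rintro ⟨h1, h2, h3⟩
      exact ⟨h1, by linarith, by linarith⟩
    · rintro ⟨h1, h2, h3⟩
      exact ⟨h1, by linarith, by linarith⟩
  rw [this]
  exact ((convex_halfSpace_re_gt _).inter
    ((convex_halfSpace_im_gt _).inter (convex_halfSpace_im_lt _))).isPreconnected

theorem compl_eq (k : ℕ) : (Xs k)ᶜ \ {((Ak k : ℝ) : ℂ)} =
    (((((((C1 k ∪ C3 k) ∪ C2 k) ∪ C4 k) ∪ C5 k) ∪ C6 k) ∪ C7 k) ∪ An k) := by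
  have hk : (0 : ℝ) ≤ k := Nat.cast_nonneg k
  have h0 := u_pos k
  have h0' := u_le k
  have hA : Ak k = 10 * k + 10 := rfl
  ext z
  constructor
  · rintro ⟨h1, h2⟩
    have hz2 : z.re ≠ Ak k ∨ z.im ≠ 0 := by
      by_contra hcon
      push Not at hcon
      apply h2
      simp only [mem_singleton_iff]
      apply Complex.ext
      · simp [hcon.1]
      · simp [hcon.2]
    by_cases hO : z ∈ O k
    · rcases hO with hO | hO
      · right
        simp only [mem_ofPred_eq] at hO
        have h3 : ra k < ‖z - w k‖ := by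
          by_contra hcon
          push Not at hcon
          exact h1 (Or.inr (Or.inr hcon))
        refine ⟨h3, hO, ?_⟩
        rw [Complex.mem_slitPlane_iff]
        by_contra hcon
        push Not at hcon
        obtain ⟨h4, h5⟩ := hcon
        simp only [Complex.sub_re, w_re, Complex.sub_im, w_im] at h4 h5
        apply h1
        right; left
        have h6 : z.im = H k := by linarith
        have h7 := norm_of_im h6
        rw [abs_of_nonpos h4] at h7
        refine ⟨h6, ?_, ?_⟩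
        · rw [h7] at hO; linarith
        · rw [h7] at h3; linarith
      · left; right
        exact hO
    · have h3 : 7 < z.re := by
        by_contra hcon
        push Not at hcon
        exact h1 (Or.inl ⟨Or.inl hcon, hO⟩)
      have h4 : ¬ (z.re ≤ 10 * k + 7 ∧ |z.im| ≤ 10 * k + 5) := by
        intro hcon
        exact h1 (Or.inl ⟨Or.inr hcon, hO⟩)
      left; left
      by_cases h5 : 10 * (k : ℝ) + 7 < z.re
      · left; left
        rcases lt_trichotomy z.im 0 with h6 | h6 | h6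
        · left; right; exact ⟨h5, h6⟩
        · rcases lt_trichotomy z.re (Ak k) with h7 | h7 | h7
          · left; left; right; exact ⟨h5, h7⟩
          · exfalso
            rcases hz2 with hz2 | hz2
            · exact hz2 h7
            · exact hz2 h6
          · right; exact h7
        · left; left; left; exact ⟨h5, h6⟩
      · push Not at h5
        have h6 : 10 * (k : ℝ) + 5 < |z.im| := by
          by_contra hcon
          push Not at hcon
          exact h4 ⟨h5, hcon⟩
        rcases lt_abs.1 h6 with h7 | h7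
        · left; right; exact ⟨h3, h7⟩
        · right; exact ⟨h3, by linarith⟩
  · have key : ∀ z : ℂ, 7 < z.re → ¬ (z.re ≤ 10 * k + 7 ∧ |z.im| ≤ 10 * k + 5) → z ∉ Xs k := by
      rintro z hz1 hz2 (⟨h1 | h1, -⟩ | h1)
      · have : z.re ≤ 7 := h1
        linarith
      · exact hz2 h1
      · have := GJ_re h1
        unfold ra at this
        linarith
    have keyA : ∀ z : ℂ, (z.re ≠ Ak k ∨ z.im ≠ 0) → z ∉ ({((Ak k : ℝ) : ℂ)} : Set ℂ) := by
      rintro z hz hz'
      rw [mem_singleton_iff] at hz'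
      rw [hz'] at hz
      simp at hz
    rintro (((((((h | h) | h) | h) | h) | h) | h) | h)
    · obtain ⟨h1, h2⟩ := h
      exact ⟨key z (by linarith) (fun h => by linarith [h.1]), keyA z (Or.inr h2.ne')⟩
    · obtain ⟨h1, h2⟩ := h
      exact ⟨key z (by linarith) (fun h => by linarith [h.1]), keyA z (Or.inl h2.ne)⟩
    · obtain ⟨h1, h2⟩ := h
      exact ⟨key z (by linarith) (fun h => by linarith [h.1]), keyA z (Or.inr h2.ne)⟩
    · have h1 : Ak k < z.re := h
      exact ⟨key z (by linarith) (fun h => by linarith [h.1]), keyA z (Or.inl h1.ne')⟩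
    · obtain ⟨h1, h2⟩ := h
      have h3 := le_abs_self z.im
      exact ⟨key z h1 (fun h => by linarith [h.2]), keyA z (Or.inr (by linarith : 0 < z.im).ne')⟩
    · obtain ⟨h1, h2⟩ := h
      have h3 := neg_abs_le z.im
      exact ⟨key z h1 (fun h => by linarith [h.2]), keyA z (Or.inr (by linarith : z.im < 0).ne)⟩
    · have h1 : 3 + rm k < z.re := h.1
      have h2 : |z.im - H k| < u k := h.2
      have h3 := H_ge k
      have h4 := neg_abs_le (z.im - H k)
      refine ⟨?_, keyA z (Or.inr (by linarith : 0 < z.im).ne')⟩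
      rintro (⟨-, h5⟩ | h5)
      · exact h5 (Or.inr h)
      · have := GJ_re h5
        unfold ra at this
        unfold rm at h1
        linarith
    · obtain ⟨h1, h2, h3⟩ := h
      have h4 := im_le z k
      have h5 := neg_abs_le (z.im - H k)
      have h6 := H_ge k
      refine ⟨?_, keyA z (Or.inr (by unfold rr at h2; linarith : 0 < z.im).ne')⟩
      rintro (h7 | h7 | h7)
      · exact not_Y_of_lt h2 h7
      · rw [Complex.mem_slitPlane_iff] at h3
        simp only [Complex.sub_re, w_re, Complex.sub_im, w_im] at h3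
        rcases h3 with h3 | h3
        · have := h7.2.2
          unfold ra at this
          linarith
        · apply h3
          rw [h7.1]; ring
      · have : ‖z - w k‖ ≤ ra k := h7
        linarith

theorem compl_conn (k : ℕ) : IsConnected ((Xs k)ᶜ \ {((Ak k : ℝ) : ℂ)}) := by
  have hk : (0 : ℝ) ≤ k := Nat.cast_nonneg k
  have h0 := u_pos k
  have h0' := u_le k
  have hA : Ak k = 10 * k + 10 := rfl
  rw [compl_eq]
  constructor
  · refine ⟨⟨10 * k + 8, 1⟩, ?_⟩
    left; left; left; left; left; left; left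
    exact ⟨by show 10 * (k : ℝ) + 7 < 10 * k + 8; linarith, by show (0 : ℝ) < 1; norm_num⟩
  · have p1 : IsPreconnected (C1 k ∪ C3 k) := by
      refine IsPreconnected.union (⟨10 * k + 8, 1⟩ : ℂ) ?_ ?_ (pre_re_im _ _) (pre_re_re _ _)
      · exact ⟨by show 10 * (k : ℝ) + 7 < 10 * k + 8; linarith, by show (0 : ℝ) < 1; norm_num⟩
      · exact ⟨by show 10 * (k : ℝ) + 7 < 10 * k + 8; linarith,
          by show 10 * (k : ℝ) + 8 < Ak k; linarith⟩
    have p2 : IsPreconnected ((C1 k ∪ C3 k) ∪ C2 k) := by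
      refine IsPreconnected.union (⟨10 * k + 8, -1⟩ : ℂ) ?_ ?_ p1 (pre_re_im' _ _)
      · right
        exact ⟨by show 10 * (k : ℝ) + 7 < 10 * k + 8; linarith,
          by show 10 * (k : ℝ) + 8 < Ak k; linarith⟩
      · exact ⟨by show 10 * (k : ℝ) + 7 < 10 * k + 8; linarith, by show (-1 : ℝ) < 0; norm_num⟩
    have p3 : IsPreconnected (((C1 k ∪ C3 k) ∪ C2 k) ∪ C4 k) := by
      refine IsPreconnected.union (⟨10 * k + 11, 1⟩ : ℂ) ?_ ?_ p2
        (convex_halfSpace_re_gt _).isPreconnected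
      · left; left
        exact ⟨by show 10 * (k : ℝ) + 7 < 10 * k + 11; linarith, by show (0 : ℝ) < 1; norm_num⟩
      · show Ak k < 10 * k + 11
        linarith
    have p4 : IsPreconnected ((((C1 k ∪ C3 k) ∪ C2 k) ∪ C4 k) ∪ C5 k) := by
      refine IsPreconnected.union (⟨10 * k + 8, 10 * k + 6⟩ : ℂ) ?_ ?_ p3 (pre_re_im _ _)
      · left; left; left
        exact ⟨by show 10 * (k : ℝ) + 7 < 10 * k + 8; linarith,
          by show (0 : ℝ) < 10 * k + 6; positivity⟩
      · exact ⟨by show (7 : ℝ) < 10 * k + 8; linarith,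
          by show 10 * (k : ℝ) + 5 < 10 * k + 6; linarith⟩
    have p5 : IsPreconnected (((((C1 k ∪ C3 k) ∪ C2 k) ∪ C4 k) ∪ C5 k) ∪ C6 k) := by
      refine IsPreconnected.union (⟨10 * k + 8, -(10 * k + 6)⟩ : ℂ) ?_ ?_ p4 (pre_re_im' _ _)
      · left; left; right
        exact ⟨by show 10 * (k : ℝ) + 7 < 10 * k + 8; linarith,
          by show -(10 * (k : ℝ) + 6) < 0; linarith⟩
      · exact ⟨by show (7 : ℝ) < 10 * k + 8; linarith,
          by show -(10 * (k : ℝ) + 6) < -(10 * (k : ℝ) + 5); linarith⟩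
    have p6 : IsPreconnected ((((((C1 k ∪ C3 k) ∪ C2 k) ∪ C4 k) ∪ C5 k) ∪ C6 k) ∪ C7 k) := by
      refine IsPreconnected.union (⟨8, H k⟩ : ℂ) ?_ ?_ p5 (C7_pre k)
      · left; right
        exact ⟨by show (7 : ℝ) < 8; norm_num,
          by show 10 * (k : ℝ) + 5 < H k; unfold H; linarith⟩
      · exact ⟨by show 3 + rm k < 8; unfold rm; linarith, by
          show |H k - H k| < u k
          simpa using h0⟩
    refine IsPreconnected.union (⟨3 + (rm k + rr k) / 2, H k⟩ : ℂ) ?_ ?_ p6 (An_pre k)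
    · right
      exact ⟨by show 3 + rm k < 3 + (rm k + rr k) / 2; unfold rm rr; linarith, by
          show |H k - H k| < u k
          simpa using h0⟩
    · have h1 : ‖(⟨3 + (rm k + rr k) / 2, H k⟩ : ℂ) - w k‖ = (rm k + rr k) / 2 := by
        rw [norm_of_im rfl]
        show |3 + (rm k + rr k) / 2 - 3| = _
        rw [add_sub_cancel_left, abs_of_pos]
        unfold rm rr
        positivity
      refine ⟨?_, ?_, ?_⟩
      · rw [h1]; unfold ra rm rr; linarith
      · rw [h1]; unfold rm rr; linarith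
      · rw [Complex.mem_slitPlane_iff]
        left
        show 0 < 3 + (rm k + rr k) / 2 - 3
        unfold rm rr
        linarith

end Pool.Agent.W723.WL
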