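import Pool.Agent.W723.WL.Seq

/-!
Dynamics: the basin and the wandering discs.
-/

set_option autoImplicit false

open Filter Topology Metric Set

namespace Pool.Agent.W723.WL

/-- chordal distance -/
noncomputable def chord (a b : ℂ) : ℝ :=
  2 * ‖a - b‖ / (Real.sqrt (1 + ‖a‖ ^ 2) * Real.sqrt (1 + ‖b‖ ^ 2))

/-- the set of equicontinuity -/
def Fat (f : ℂ → ℂ) : Set ℂ :=
  {z : ℂ | ∃ V : Set ℂ, IsOpen V ∧ z ∈ V ∧
              ∀ y ∈ V, ∀ ε : ℝ, 0 < ε → ∃ δ : ℝ, 0 < δ ∧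
                ∀ w : ℂ, dist w y < δ → ∀ n : ℕ,
                  2 * ‖f^[n] y - f^[n] w‖ /
                    (Real.sqrt (1 + ‖f^[n] y‖ ^ 2) * Real.sqrt (1 + ‖f^[n] w‖ ^ 2)) < ε}

theorem sqrt_ge_one (x : ℝ) : 1 ≤ Real.sqrt (1 + x ^ 2) := by
  rw [Real.one_le_sqrt]
  nlinarith [sq_nonneg x]

theorem chord_le (a b : ℂ) : chord a b ≤ 2 * ‖a - b‖ := by
  unfold chord
  apply div_le_self (by positivity)
  have h1 := sqrt_ge_one ‖a‖
  have h2 := sqrt_ge_one ‖b‖
  nlinarith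

theorem chord_le_div (a b : ℂ) (ha : 0 < ‖a‖) : chord a b ≤ 2 * ‖a - b‖ / ‖a‖ := by
  unfold chord
  apply div_le_div_of_nonneg_left (by positivity) ha
  have h1 : ‖a‖ ≤ Real.sqrt (1 + ‖a‖ ^ 2) := by
    apply Real.le_sqrt_of_sq_le
    linarith
  have h2 := sqrt_ge_one ‖b‖
  nlinarith

theorem chord_lower (a b : ℂ) (hb : ‖b‖ ≤ 1 / 4) (h : chord a b < 1 / 2) : ‖a‖ < 1 := by
  by_contra hcon
  push Not at hcon
  unfold chord at h
  have h1 : Real.sqrt (1 + ‖a‖ ^ 2) ≤ 3 / 2 * ‖a‖ := by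
    rw [Real.sqrt_le_left (by positivity)]
    nlinarith
  have h2 : Real.sqrt (1 + ‖b‖ ^ 2) ≤ 33 / 32 := by
    rw [Real.sqrt_le_left (by positivity)]
    nlinarith [norm_nonneg b]
  have h3 : ‖a‖ - ‖b‖ ≤ ‖a - b‖ := norm_sub_norm_le a b
  have h4 : 0 < Real.sqrt (1 + ‖a‖ ^ 2) * Real.sqrt (1 + ‖b‖ ^ 2) := by positivity
  rw [div_lt_iff₀ h4] at h
  have h5 : Real.sqrt (1 + ‖a‖ ^ 2) * Real.sqrt (1 + ‖b‖ ^ 2) ≤ 3 / 2 * ‖a‖ * (33 / 32) := by
    gcongr
  nlinarith

theorem F_small {z : ℂ} (h : z.re ≤ 7 / 4) : ‖F z‖ ≤ 1 / 800 := F_Q (Q_of_re h)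

theorem F_small' {z : ℂ} (h : ‖z‖ < 1) : ‖F z‖ ≤ 1 / 800 := by
  apply F_small
  have := (le_abs_self z.re).trans (Complex.abs_re_le_norm z)
  linarith

theorem F_contr {y z : ℂ} (hy : ‖y‖ < 1) (hz : ‖z‖ < 1) : ‖F y - F z‖ ≤ ‖y - z‖ := by
  have h := Convex.norm_image_sub_le_of_norm_deriv_le (𝕜 := ℂ) (f := F) (C := 1)
    (s := ball (0 : ℂ) 1) (x := z) (y := y) (fun x _ => F_diff x) ?_ (convex_ball _ _)
    (by simpa using hz) (by simpa using hy)
  · simpa using h
  · intro x hx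
    rw [mem_ball_zero_iff] at hx
    have h1 := Complex.norm_deriv_le_of_forall_mem_sphere_norm_le (c := x) (R := 3 / 4)
      (C := 1 / 800) (f := F) (by norm_num) (F_diff.diffContOnCl) ?_
    · refine h1.trans ?_
      norm_num
    · intro y hy
      rw [mem_sphere_iff_norm] at hy
      apply F_small
      have h2 := (le_abs_self (y - x).re).trans (Complex.abs_re_le_norm (y - x))
      have h3 := (le_abs_self x.re).trans (Complex.abs_re_le_norm x)
      rw [Complex.sub_re] at h2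
      linarith

theorem iter_lt {y : ℂ} (hy : ‖y‖ < 1) (n : ℕ) : ‖F^[n] y‖ < 1 := by
  induction n with
  | zero => exact hy
  | succ n ih =>
    rw [Function.iterate_succ_apply']
    have := F_small' ih
    linarith

theorem iter_contr {y z : ℂ} (hy : ‖y‖ < 1) (hz : ‖z‖ < 1) (n : ℕ) :
    ‖F^[n] y - F^[n] z‖ ≤ ‖y - z‖ := by
  induction n with
  | zero => exact le_rfl
  | succ n ih =>
    rw [Function.iterate_succ_apply', Function.iterate_succ_apply']
    exact (F_contr (iter_lt hy n) (iter_lt hz n)).trans ih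

theorem iter_cont (n : ℕ) : Continuous (F^[n]) := F_diff.continuous.iterate n

/-- the basin -/
def At : Set ℂ := {z | ∃ n : ℕ, ‖F^[n] z‖ < 1}

theorem isOpen_At : IsOpen At := by
  have : At = ⋃ n : ℕ, {z | ‖F^[n] z‖ < 1} := by
    ext z
    simp [At]
  rw [this]
  exact isOpen_iUnion fun n => isOpen_lt (iter_cont n).norm continuous_const

theorem At_of_F {z : ℂ} (h : F z ∈ At) : z ∈ At := by
  obtain ⟨n, hn⟩ := h
  exact ⟨n + 1, by rwa [Function.iterate_succ_apply]⟩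

theorem F_mem_At {z : ℂ} (h : z ∈ At) : F z ∈ At := by
  obtain ⟨n, hn⟩ := h
  refine ⟨n, ?_⟩
  rw [← Function.iterate_succ_apply, Function.iterate_succ_apply']
  have := F_small' hn
  linarith

theorem Q_At {z : ℂ} (h : z ∈ Q) : z ∈ At := by
  refine ⟨1, ?_⟩
  have := F_Q h
  simp only [Function.iterate_one]
  linarith

theorem At_equi {y : ℂ} (hy : y ∈ At) (ε : ℝ) (hε : 0 < ε) :
    ∃ δ : ℝ, 0 < δ ∧ ∀ w : ℂ, dist w y < δ → ∀ n : ℕ, chord (F^[n] y) (F^[n] w) < ε := by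
  obtain ⟨N, hN⟩ := hy
  have h1 : ∀ᶠ w in 𝓝 y, ∀ n ∈ Finset.range (N + 1), 2 * ‖F^[n] y - F^[n] w‖ < ε := by
    rw [Filter.eventually_all_finset]
    intro n _
    have hc : Continuous fun w => 2 * ‖F^[n] y - F^[n] w‖ :=
      continuous_const.mul (continuous_const.sub (iter_cont n)).norm
    refine hc.continuousAt.eventually (gt_mem_nhds ?_)
    simpa using hε
  have h2 : ∀ᶠ w in 𝓝 y, ‖F^[N] w‖ < 1 :=
    (iter_cont N).norm.continuousAt.eventually (gt_mem_nhds hN)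
  obtain ⟨δ, hδ, hδ'⟩ := Metric.eventually_nhds_iff.1 (h1.and h2)
  refine ⟨δ, hδ, fun w hw n => ?_⟩
  obtain ⟨h3, h4⟩ := hδ' hw
  rcases le_total n N with hn | hn
  · exact (chord_le _ _).trans_lt (h3 n (Finset.mem_range.2 (by omega)))
  · obtain ⟨m, rfl⟩ := Nat.exists_eq_add_of_le hn
    refine (chord_le _ _).trans_lt ?_
    rw [add_comm N m, Function.iterate_add_apply, Function.iterate_add_apply]
    have h5 := iter_contr hN h4 m
    have h6 := h3 N (Finset.mem_range.2 (by omega))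
    linarith

theorem At_sub_Fat : At ⊆ Fat F := fun _ hz =>
  ⟨At, isOpen_At, hz, fun _ hy ε hε => At_equi hy ε hε⟩

theorem Fat_closure {z : ℂ} (hz : z ∈ Fat F) (hc : z ∈ closure At) : z ∈ At := by
  obtain ⟨V, -, hzV, hV⟩ := hz
  obtain ⟨δ, hδ, h⟩ := hV z hzV (1 / 2) (by norm_num)
  obtain ⟨w, hw, hwd⟩ := Metric.mem_closure_iff.1 hc δ hδ
  obtain ⟨n, hn⟩ := hw
  have h1 := h w (by rw [dist_comm]; exact hwd) (n + 1)
  refine ⟨n + 1, chord_lower _ _ ?_ h1⟩
  rw [Function.iterate_succ_apply']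
  have := F_small' hn
  linarith

/-- the component of the Fatou set -/
def U : Set ℂ := connectedComponentIn (Fat F) 0

theorem zero_At : (0 : ℂ) ∈ At := ⟨0, by simp⟩

theorem U_sub_At : U ⊆ At := by
  refine IsPreconnected.subset_of_closure_inter_subset isPreconnected_connectedComponentIn
    isOpen_At ⟨0, mem_connectedComponentIn (At_sub_Fat zero_At), zero_At⟩ ?_
  rintro z ⟨hz1, hz2⟩
  exact Fat_closure (connectedComponentIn_subset _ _ hz2) hz1

theorem sub_U {C : Set ℂ} (hC : IsPreconnected C) (h0 : (0 : ℂ) ∈ C) (h : C ⊆ At) : C ⊆ U :=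
  hC.subset_connectedComponentIn h0 (h.trans At_sub_Fat)

theorem F_zero_mem : F 0 ∈ U := by
  have h1 : ball (0 : ℂ) 1 ⊆ U := by
    refine sub_U (convex_ball _ _).isPreconnected (by simp) ?_
    intro z hz
    exact ⟨0, by simpa using hz⟩
  apply h1
  rw [mem_ball_zero_iff]
  have := F_small' (z := 0) (by simp)
  linarith

theorem F_U : F '' U ⊆ U := by
  have h1 : F '' U ⊆ connectedComponentIn (Fat F) (F 0) := by
    refine IsPreconnected.subset_connectedComponentIn ?_ ?_ ?_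
    · exact isPreconnected_connectedComponentIn.image _ F_diff.continuous.continuousOn
    · exact ⟨0, mem_connectedComponentIn (At_sub_Fat zero_At), rfl⟩
    · rintro _ ⟨z, hz, rfl⟩
      exact At_sub_Fat (F_mem_At (U_sub_At hz))
  have h2 : U = connectedComponentIn (Fat F) (F 0) := connectedComponentIn_eq F_zero_mem
  rw [← h2] at h1
  exact h1

/-- the set of points that follow the discs -/
def S : Set ℂ := {z | ∀ k : ℕ, ‖F^[k] z - w k‖ ≤ rt k}

theorem isClosed_S : IsClosed S := by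
  have : S = ⋂ k : ℕ, {z | ‖F^[k] z - w k‖ ≤ rt k} := by
    ext z
    simp [S]
  rw [this]
  exact isClosed_iInter fun k => isClosed_le ((iter_cont k).sub continuous_const).norm
    continuous_const

theorem rt_le_ra (k : ℕ) : rt k ≤ ra k := by
  have := u_pos k
  unfold rt ra
  linarith

theorem rt_le (k : ℕ) : rt k ≤ 9 / 8 := by
  have := u_le k
  unfold rt
  linarith

theorem norm_ge_of_S {z : ℂ} {k : ℕ} (h : ‖z - w k‖ ≤ rt k) : H k - 2 ≤ ‖z‖ := by
  have h1 := im_le z k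
  have h2 := neg_abs_le (z.im - H k)
  have h3 := (le_abs_self z.im).trans (Complex.abs_im_le_norm z)
  have h4 := rt_le k
  linarith

theorem S_At {z : ℂ} (hz : z ∈ S) : z ∉ At := by
  rintro ⟨n, hn⟩
  have h1 := norm_ge_of_S (hz n)
  have h2 := H_ge n
  linarith

theorem follow {z : ℂ} (hz : ‖z - w 0‖ ≤ 1 / 2) (k : ℕ) : ‖F^[k] z - w k‖ ≤ 3 / 4 - u k := by
  induction k with
  | zero =>
    rw [u_zero]
    simpa using hz.trans (by norm_num)
  | succ k ih =>
    have hu := u_pos k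
    have h1 : ‖F^[k] z - w k‖ ≤ ra k := by
      unfold ra
      linarith
    have h2 := F_G h1
    have h3 := e_le k
    rw [Function.iterate_succ_apply', w_succ, u_succ]
    calc ‖F (F^[k] z) - (w k + 10 * Complex.I)‖
        = ‖(F (F^[k] z) - (F^[k] z + 10 * Complex.I)) + (F^[k] z - w k)‖ := by congr 1; ring
      _ ≤ _ := norm_add_le _ _
      _ ≤ _ := by linarith

theorem ball_S : closedBall (w 0) (1 / 2) ⊆ S := by
  intro z hz k
  rw [mem_closedBall_iff_norm] at hz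
  have h1 := follow hz k
  have h2 := u_pos k
  unfold rt
  linarith

theorem w0_interior : w 0 ∈ interior S := by
  rw [mem_interior_iff_mem_nhds]
  exact mem_of_superset (closedBall_mem_nhds _ (by norm_num)) ball_S

theorem interior_S_closure {z : ℂ} (hz : z ∈ interior S) : z ∉ closure U := by
  intro h
  obtain ⟨y, hy1, hy2⟩ := mem_closure_iff.1 h _ isOpen_interior hz
  exact S_At (interior_subset hy1) (U_sub_At hy2)

theorem interior_S_Fat : interior S ⊆ Fat F := by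
  intro z hz
  refine ⟨interior S, isOpen_interior, hz, fun y hy ε hε => ?_⟩
  obtain ⟨N, hN⟩ := exists_nat_gt (6 / ε)
  have h1 : ∀ᶠ v in 𝓝 y, ∀ n ∈ Finset.range (N + 1), 2 * ‖F^[n] y - F^[n] v‖ < ε := by
    rw [Filter.eventually_all_finset]
    intro n _
    have hc : Continuous fun v => 2 * ‖F^[n] y - F^[n] v‖ :=
      continuous_const.mul (continuous_const.sub (iter_cont n)).norm
    refine hc.continuousAt.eventually (gt_mem_nhds ?_)
    simpa using hε
  obtain ⟨δ, hδ, hδ'⟩ := Metric.eventually_nhds_iff.1 (h1.and (isOpen_interior.mem_nhds hy))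
  refine ⟨δ, hδ, fun v hv n => ?_⟩
  obtain ⟨h3, h4⟩ := hδ' hv
  show chord (F^[n] y) (F^[n] v) < ε
  rcases lt_or_ge n (N + 1) with hn | hn
  · exact (chord_le _ _).trans_lt (h3 n (Finset.mem_range.2 hn))
  · have h5 : ‖F^[n] y - w n‖ ≤ rt n := interior_subset hy n
    have h6 : ‖F^[n] v - w n‖ ≤ rt n := interior_subset h4 n
    have h7 := norm_ge_of_S h5
    have h8 := rt_le n
    have h9 : ‖F^[n] y - F^[n] v‖ ≤ 9 / 4 := by
      calc ‖F^[n] y - F^[n] v‖ = ‖(F^[n] y - w n) - (F^[n] v - w n)‖ := by congr 1; ring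
        _ ≤ _ := norm_sub_le _ _
        _ ≤ _ := by linarith
    have hnN : (N : ℝ) + 1 ≤ n := by exact_mod_cast hn
    have hN0 : (0 : ℝ) ≤ N := Nat.cast_nonneg N
    have h10 : (N : ℝ) + 1 ≤ ‖F^[n] y‖ := by
      unfold H at h7
      linarith
    have h11 : 0 < ‖F^[n] y‖ := by linarith
    refine (chord_le_div _ _ h11).trans_lt ?_
    rw [div_lt_iff₀ h11]
    rw [div_lt_iff₀ hε] at hN
    nlinarith

theorem S_strict {z : ℂ} (hz : z ∈ S) (k : ℕ) : ‖F^[k] z - w k‖ < rt k := by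
  have h1 := hz (k + 1)
  have h2 := hz k
  have h3 := F_G (h2.trans (rt_le_ra k))
  have h4 := u_pos k
  have h5 := e_le k
  rw [Function.iterate_succ_apply', w_succ] at h1
  unfold rt at h1 ⊢
  rw [u_succ] at h1
  calc ‖F^[k] z - w k‖ = ‖(F (F^[k] z) - (w k + 10 * Complex.I)) -
        (F (F^[k] z) - (F^[k] z + 10 * Complex.I))‖ := by congr 1; ring
    _ ≤ _ := norm_sub_le _ _
    _ < _ := by linarith

end Pool.Agent.W723.WL
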