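import Mathlib

/-!
The planar sets of the construction.
-/

set_option autoImplicit false

open Filter Topology Metric Set

namespace Pool.Agent.W723.WL

noncomputable def u (k : ℕ) : ℝ := (1 / 4 : ℝ) ^ (k + 1)
noncomputable def H (k : ℕ) : ℝ := 10 * ((k : ℝ) + 1)
noncomputable def w (k : ℕ) : ℂ := ⟨3, H k⟩
noncomputable def rt (k : ℕ) : ℝ := 1 + u k / 2
noncomputable def ra (k : ℕ) : ℝ := 1 + 3 * u k / 4
noncomputable def rm (k : ℕ) : ℝ := 1 + 7 * u k / 8
noncomputable def rr (k : ℕ) : ℝ := 1 + u k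
noncomputable def rb (k : ℕ) : ℝ := 1 + 3 * u k / 2
noncomputable def rd (k : ℕ) : ℝ := 1 + 7 * u k / 4
noncomputable def e (k : ℕ) : ℝ := u k ^ 2 / 50

/-- the open disc with its channel -/
def O (k : ℕ) : Set ℂ :=
  {z | ‖z - w k‖ < rr k} ∪ {z | 3 + rm k < z.re ∧ |z.im - H k| < u k}

/-- the region where the function is small -/
def Q : Set ℂ := {z | z.re ≤ 7 ∧ ∀ j, z ∉ O j}

/-- the region of smallness for the step -/
def Y (k : ℕ) : Set ℂ :=
  ({z : ℂ | z.re ≤ 7} ∪ {z : ℂ | z.re ≤ 10 * k + 7 ∧ |z.im| ≤ 10 * k + 5}) \ O k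

/-- the slit -/
def J (k : ℕ) : Set ℂ := {z | z.im = H k ∧ 3 - rr k ≤ z.re ∧ z.re ≤ 3 - ra k}

def G (k : ℕ) : Set ℂ := {z | ‖z - w k‖ ≤ ra k}

@[simp] theorem w_re (k : ℕ) : (w k).re = 3 := rfl
@[simp] theorem w_im (k : ℕ) : (w k).im = H k := rfl

theorem u_pos (k : ℕ) : 0 < u k := by unfold u; positivity

theorem u_succ (k : ℕ) : u (k + 1) = u k / 4 := by
  unfold u
  rw [pow_succ]
  ring

theorem u_zero : u 0 = 1 / 4 := by simp [u]

theorem u_le (k : ℕ) : u k ≤ 1 / 4 := by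
  induction k with
  | zero => rw [u_zero]
  | succ k ih =>
    rw [u_succ]
    have := u_pos k
    linarith

theorem u_eq (k : ℕ) : 4 * u k = (1 / 4 : ℝ) ^ k := by
  unfold u
  rw [pow_succ]
  ring

theorem e_pos (k : ℕ) : 0 < e k := by
  have := u_pos k
  unfold e
  positivity

theorem e_succ (k : ℕ) : e (k + 1) = e k / 16 := by
  unfold e
  rw [u_succ]
  ring

theorem e_lt_succ (k : ℕ) : e (k + 1) < e k := by
  rw [e_succ]
  have := e_pos k
  linarith

theorem e_le (k : ℕ) : e k ≤ u k / 200 := by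
  have h1 := u_pos k
  have h2 := u_le k
  unfold e
  nlinarith

theorem e_le' (k : ℕ) : e k ≤ 1 / 800 := by
  have h1 := e_le k
  have h2 := u_le k
  linarith

theorem H_succ (k : ℕ) : H (k + 1) = H k + 10 := by
  unfold H
  push_cast
  ring

theorem H_ge (k : ℕ) : 10 ≤ H k := by
  unfold H
  have : (0 : ℝ) ≤ k := Nat.cast_nonneg k
  linarith

theorem w_succ (k : ℕ) : w (k + 1) = w k + 10 * Complex.I := by
  apply Complex.ext
  · simp
  · simp [H_succ]

theorem H_sep {j k : ℕ} (h : j ≠ k) : 10 ≤ |H j - H k| := by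
  unfold H
  have h1 : (1 : ℝ) ≤ |(j : ℝ) - k| := by
    have : (1 : ℤ) ≤ |(j : ℤ) - k| := by
      apply Int.one_le_abs
      omega
    exact_mod_cast this
  have h2 : 10 * ((j : ℝ) + 1) - 10 * ((k : ℝ) + 1) = 10 * ((j : ℝ) - k) := by ring
  rw [h2, abs_mul, abs_of_pos (by norm_num : (0 : ℝ) < 10)]
  linarith

theorem isOpen_O (k : ℕ) : IsOpen (O k) := by
  unfold O
  refine IsOpen.union ?_ ?_
  · exact isOpen_lt (by fun_prop) continuous_const
  · refine IsOpen.inter ?_ ?_
    · exact isOpen_lt continuous_const Complex.continuous_re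
    · exact isOpen_lt (Complex.continuous_im.sub continuous_const).abs continuous_const

theorem isClosed_Y (k : ℕ) : IsClosed (Y k) := by
  unfold Y
  refine IsClosed.sdiff (IsClosed.union ?_ ?_) (isOpen_O k)
  · exact isClosed_le Complex.continuous_re continuous_const
  · refine IsClosed.inter ?_ ?_
    · exact isClosed_le Complex.continuous_re continuous_const
    · exact isClosed_le Complex.continuous_im.abs continuous_const

theorem isClosed_J (k : ℕ) : IsClosed (J k) := by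
  unfold J
  refine IsClosed.inter ?_ (IsClosed.inter ?_ ?_)
  · exact isClosed_eq Complex.continuous_im continuous_const
  · exact isClosed_le continuous_const Complex.continuous_re
  · exact isClosed_le Complex.continuous_re continuous_const

theorem isClosed_G (k : ℕ) : IsClosed (G k) := by
  unfold G
  exact isClosed_le (by fun_prop) continuous_const

theorem re_le (z : ℂ) (k : ℕ) : |z.re - 3| ≤ ‖z - w k‖ := by
  have := Complex.abs_re_le_norm (z - w k)
  simpa using this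

theorem im_le (z : ℂ) (k : ℕ) : |z.im - H k| ≤ ‖z - w k‖ := by
  have := Complex.abs_im_le_norm (z - w k)
  simpa using this

theorem O_bound {j : ℕ} {z : ℂ} (h : z ∈ O j) : |z.im - H j| < 5 / 4 ∧ 7 / 4 < z.re := by
  have h1 := u_pos j
  have h2 := u_le j
  rcases h with h | ⟨h, h'⟩
  · have h3 := im_le z j
    have h4 := re_le z j
    simp only [mem_ofPred_eq, rr] at h
    refine ⟨by linarith, ?_⟩
    have := neg_abs_le (z.re - 3)
    linarith
  · unfold rm at h
    refine ⟨by linarith, by linarith⟩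

theorem notO_of_ne {j k : ℕ} {z : ℂ} (hz : |z.im - H k| ≤ 5) (h : j ≠ k) : z ∉ O j := by
  intro hO
  have h1 := (O_bound hO).1
  have h2 := H_sep h
  have h3 : |H j - H k| ≤ |z.im - H j| + |z.im - H k| := by
    have : H j - H k = -(z.im - H j) + (z.im - H k) := by ring
    rw [this]
    calc |-(z.im - H j) + (z.im - H k)| ≤ |-(z.im - H j)| + |z.im - H k| := abs_add_le _ _
      _ = _ := by rw [abs_neg]
  linarith

theorem Q_of_re {z : ℂ} (h : z.re ≤ 7 / 4) : z ∈ Q := by
  refine ⟨by linarith, fun j hj => ?_⟩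
  have := (O_bound hj).2
  linarith

theorem Q_of_near {k : ℕ} {z : ℂ} (h1 : |z.im - H k| ≤ 5) (h2 : z.re ≤ 7) (h3 : rr k ≤ ‖z - w k‖)
    (h4 : ¬ (3 + rm k < z.re ∧ |z.im - H k| < u k)) : z ∈ Q := by
  refine ⟨h2, fun j hj => ?_⟩
  by_cases hjk : j = k
  · subst hjk
    rcases hj with hj | hj
    · simp only [mem_ofPred_eq] at hj
      linarith
    · exact h4 hj
  · exact notO_of_ne h1 hjk hj

theorem Q_subset_Y (k : ℕ) : Q ⊆ Y k := fun _ hz => ⟨Or.inl hz.1, hz.2 k⟩

theorem B_subset_Y {j k : ℕ} (h : j ≤ k) {z : ℂ} (h1 : z.re ≤ 10 * j + 7)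
    (h2 : |z.im| ≤ 10 * j + 5) : z ∈ Y k := by
  have hjk : (j : ℝ) ≤ k := by exact_mod_cast h
  refine ⟨Or.inr ⟨by linarith, by linarith⟩, fun hO => ?_⟩
  have h3 := (O_bound hO).1
  have h4 := le_abs_self z.im
  have h5 := neg_abs_le (z.im - H k)
  unfold H at *
  linarith

theorem near_Y {j k : ℕ} (h : j ≠ k) {z : ℂ} (hz : ‖z - w k‖ ≤ rr k) : z ∈ Y j := by
  have h1 := re_le z k
  have h2 := im_le z k
  have h3 := u_le k
  have h4 := le_abs_self (z.re - 3)
  unfold rr at hz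
  exact ⟨Or.inl (by simp only [mem_ofPred_eq]; linarith), notO_of_ne (k := k) (by linarith) h⟩

theorem norm_of_im {k : ℕ} {z : ℂ} (h : z.im = H k) : ‖z - w k‖ = |z.re - 3| := by
  have h1 : z - w k = ((z.re - 3 : ℝ) : ℂ) := by
    apply Complex.ext
    · simp
    · simp [h]
  rw [h1, Complex.norm_real, Real.norm_eq_abs]

theorem J_norm {k : ℕ} {z : ℂ} (hz : z ∈ J k) : ‖z - w k‖ = 3 - z.re := by
  have h1 := u_pos k
  rw [norm_of_im hz.1, abs_of_nonpos]
  · ring
  · have := hz.2.2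
    unfold ra at this
    linarith

theorem J_norm' {k : ℕ} {z : ℂ} (hz : z ∈ J k) : ra k ≤ ‖z - w k‖ ∧ ‖z - w k‖ ≤ rr k := by
  rw [J_norm hz]
  exact ⟨by linarith [hz.2.2], by linarith [hz.2.1]⟩

theorem ra_lt_rr (k : ℕ) : ra k < rr k := by
  have := u_pos k
  unfold ra rr
  linarith

theorem G_rr {k : ℕ} {z : ℂ} (hz : z ∈ G k) : ‖z - w k‖ < rr k := lt_of_le_of_lt hz (ra_lt_rr k)

theorem GJ_rr {k : ℕ} {z : ℂ} (hz : z ∈ J k ∪ G k) : ‖z - w k‖ ≤ rr k := by
  rcases hz with hz | hz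
  · exact (J_norm' hz).2
  · exact (G_rr hz).le

theorem not_Y_of_lt {k : ℕ} {z : ℂ} (hz : ‖z - w k‖ < rr k) : z ∉ Y k := fun h => h.2 (Or.inl hz)

/-- the left end of the slit -/
noncomputable def bk (k : ℕ) : ℂ := ⟨3 - rr k, H k⟩

theorem bk_norm (k : ℕ) : ‖bk k - w k‖ = rr k := by
  have h := u_pos k
  rw [norm_of_im (show (bk k).im = H k from rfl)]
  have : (bk k).re = 3 - rr k := rfl
  rw [this, show 3 - rr k - 3 = -(rr k) by ring, abs_neg, abs_of_pos]
  unfold rr
  linarith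

theorem bk_mem_Y (k j : ℕ) : bk k ∈ Y j := by
  have h := u_pos k
  have h2 := u_le k
  apply Q_subset_Y
  have h3 : (bk k).re = 3 - rr k := rfl
  have h4 : (bk k).im = H k := rfl
  refine Q_of_near (k := k) ?_ ?_ ?_ ?_
  · rw [h4]; simp
  · rw [h3]; unfold rr; linarith
  · rw [bk_norm]
  · rintro ⟨h5, -⟩
    rw [h3] at h5
    unfold rr rm at h5
    linarith

/-- a point of the slit or the disc which lies in `Y` is the left end -/
theorem eq_bk {k : ℕ} {z : ℂ} (hz : z ∈ J k ∪ G k) (hY : z ∈ Y k) : z = bk k := by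
  have h1 : rr k ≤ ‖z - w k‖ := by
    by_contra h
    push Not at h
    exact not_Y_of_lt h hY
  rcases hz with hz | hz
  · have h2 := J_norm hz
    have h3 := hz.2.1
    apply Complex.ext
    · show z.re = 3 - rr k
      linarith
    · exact hz.1
  · have := G_rr hz
    linarith

end Pool.Agent.W723.WL
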