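import Pool.Agent.W723.WL.Dyn

/-!
Near isometry, inverse branch, connecting sets.
-/

set_option autoImplicit false

open Filter Topology Metric Set

namespace Pool.Agent.W723.WL

theorem near_iso {k : ℕ} {b b' : ℂ} (hb : ‖b - w k‖ ≤ rt k) (hb' : ‖b' - w k‖ ≤ rt k) :
    ‖(F b - b) - (F b' - b')‖ ≤ 1 / 50 * ‖b - b'‖ := by
  have hu := u_pos k
  have he := e_le k
  have h := Convex.norm_image_sub_le_of_norm_deriv_le (𝕜 := ℂ) (f := fun z => F z - z)
    (C := 1 / 50) (s := closedBall (w k) (rt k)) (x := b') (y := b)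
    (fun x _ => (F_diff x).sub differentiableAt_id) ?_ (convex_closedBall _ _)
    (by rwa [mem_closedBall_iff_norm]) (by rwa [mem_closedBall_iff_norm])
  · simpa using h
  · intro x hx
    rw [mem_closedBall_iff_norm] at hx
    have hd : Differentiable ℂ fun z => F z - z - 10 * Complex.I :=
      (F_diff.sub differentiable_id).sub_const _
    have h0 : deriv (fun z => F z - z) x = deriv (fun z => F z - z - 10 * Complex.I) x := by
      rw [deriv_sub_const]
    rw [h0]
    have h1 := Complex.norm_deriv_le_of_forall_mem_sphere_norm_le (c := x) (R := u k / 4)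
      (C := u k / 200) (f := fun z => F z - z - 10 * Complex.I) (by positivity)
      hd.diffContOnCl ?_
    · refine h1.trans (le_of_eq ?_)
      field_simp
      norm_num
    · intro y hy
      rw [mem_sphere_iff_norm] at hy
      have h2 : ‖y - w k‖ ≤ ra k := by
        calc ‖y - w k‖ = ‖(y - x) + (x - w k)‖ := by congr 1; ring
          _ ≤ _ := norm_add_le _ _
          _ ≤ _ := by unfold rt at hx; unfold ra; linarith
      have h3 := F_G h2
      have h4 : F y - y - 10 * Complex.I = F y - (y + 10 * Complex.I) := by ring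
      rw [h4]
      linarith

theorem near_iso' {k : ℕ} {b b' : ℂ} (hb : ‖b - w k‖ ≤ rt k) (hb' : ‖b' - w k‖ ≤ rt k) :
    ‖b - b'‖ ≤ 2 * ‖F b - F b'‖ := by
  have h := near_iso hb hb'
  have h2 : ‖b - b'‖ ≤ ‖F b - F b'‖ + ‖(F b - b) - (F b' - b')‖ := by
    calc ‖b - b'‖ = ‖(F b - F b') - ((F b - b) - (F b' - b'))‖ := by congr 1; ring
      _ ≤ _ := norm_sub_le _ _
  have h3 := norm_nonneg (b - b')
  linarith

theorem exists_pre {k : ℕ} {a : ℂ} (ha : ‖a - w (k + 1)‖ ≤ rd (k + 1)) :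
    ∃ b, ‖b - w k‖ ≤ rt k ∧ F b = a := by
  have hu := u_pos k
  have he := e_le k
  set T : ℂ → ℂ := fun b => a - (F b - b) with hT
  have hmaps : MapsTo T (closedBall (w k) (rt k)) (closedBall (w k) (rt k)) := by
    intro b hb
    rw [mem_closedBall_iff_norm] at hb ⊢
    have h1 := F_G (hb.trans (rt_le_ra k))
    have h2 : T b - w k = (a - w (k + 1)) - (F b - (b + 10 * Complex.I)) := by
      rw [hT, w_succ]
      ring
    rw [h2]
    refine (norm_sub_le _ _).trans ?_
    unfold rd at ha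
    rw [u_succ] at ha
    unfold rt
    linarith
  have hcontr : ContractingWith (1 / 50 : NNReal) (hmaps.restrict T _ _) := by
    constructor
    · have : ((1 / 50 : NNReal) : ℝ) < 1 := by norm_num
      exact_mod_cast this
    · refine LipschitzWith.of_dist_le_mul ?_
      rintro ⟨b, hb⟩ ⟨b', hb'⟩
      rw [mem_closedBall_iff_norm] at hb hb'
      have h1 := near_iso hb hb'
      show dist (T b) (T b') ≤ ((1 / 50 : NNReal) : ℝ) * dist b b'
      rw [dist_eq_norm, dist_eq_norm]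
      have h2 : T b - T b' = -((F b - b) - (F b' - b')) := by
        rw [hT]
        ring
      rw [h2, norm_neg]
      have h3 : ((1 / 50 : NNReal) : ℝ) = 1 / 50 := by norm_num
      rw [h3]
      exact h1
  have hx : w k ∈ closedBall (w k) (rt k) := by
    rw [mem_closedBall_iff_norm, sub_self, norm_zero]
    unfold rt
    positivity
  obtain ⟨b, hb, hfix, -⟩ := hcontr.exists_fixedPoint' isClosed_closedBall.isComplete hmaps hx
    (edist_ne_top _ _)
  refine ⟨b, by rwa [mem_closedBall_iff_norm] at hb, ?_⟩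
  have h1 : T b = b := hfix
  rw [hT] at h1
  simp only at h1
  linear_combination -h1

/-- connection statement -/
def Cn (k : ℕ) (x : ℂ) : Prop :=
  ∃ C : Set ℂ, IsPreconnected C ∧ C ⊆ At ∧ (∀ c ∈ C, ‖c - w k‖ ≤ rd k) ∧
    (w k - rb k) ∈ C ∧ x ∈ C

/-- point on a horizontal radius -/
theorem left_pt (k : ℕ) (ρ : ℝ) : (w k - (ρ : ℂ)).im = H k ∧ (w k - (ρ : ℂ)).re = 3 - ρ := by
  constructor <;> simp

theorem left_norm (k : ℕ) (ρ : ℝ) (h : 0 ≤ ρ) : ‖(w k - (ρ : ℂ)) - w k‖ = ρ := by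
  rw [sub_sub_cancel_left, norm_neg, Complex.norm_real, Real.norm_of_nonneg h]

theorem left_At (k : ℕ) (ρ : ℝ) (h : ra k ≤ ρ) : (w k - (ρ : ℂ)) ∈ At := by
  have hu := u_pos k
  have h1 : 0 ≤ ρ := by unfold ra at h; linarith
  obtain ⟨h2, h3⟩ := left_pt k ρ
  rcases le_total (rr k) ρ with h4 | h4
  · apply Q_At
    refine Q_of_near (k := k) ?_ ?_ ?_ ?_
    · rw [h2]; simp
    · rw [h3]; linarith
    · rw [left_norm k ρ h1]; exact h4
    · rintro ⟨h5, -⟩
      rw [h3] at h5
      unfold rm at h5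
      linarith
  · apply At_of_F
    apply Q_At
    apply F_J
    refine ⟨h2, ?_, ?_⟩
    · rw [h3]; linarith
    · rw [h3]; linarith

theorem left_seg (k : ℕ) (ρ₁ ρ₂ : ℝ) (z : ℂ) (hz : z ∈ segment ℝ (w k - (ρ₁ : ℂ)) (w k - (ρ₂ : ℂ))) :
    ∃ ρ : ℝ, min ρ₁ ρ₂ ≤ ρ ∧ ρ ≤ max ρ₁ ρ₂ ∧ z = w k - (ρ : ℂ) := by
  rw [segment_eq_image'] at hz
  obtain ⟨s, ⟨hs0, hs1⟩, rfl⟩ := hz
  refine ⟨(1 - s) * ρ₁ + s * ρ₂, ?_, ?_, ?_⟩
  · have h1 := min_le_left ρ₁ ρ₂
    have h2 := min_le_right ρ₁ ρ₂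
    nlinarith
  · have h1 := le_max_left ρ₁ ρ₂
    have h2 := le_max_right ρ₁ ρ₂
    nlinarith
  · simp only [Complex.real_smul]
    push_cast
    ring

/-- second leg of the bridge -/
theorem bridge (k : ℕ) (b : ℂ) (hb : ‖b - w k‖ ≤ rt k) (hF : F b = w (k + 1) - (rb (k + 1) : ℂ))
    (z : ℂ) (hz : z ∈ segment ℝ (w k - (ra k : ℂ)) b) : z ∈ At ∧ ‖z - w k‖ ≤ ra k := by
  have hu := u_pos k
  have hu' := u_le k
  have he := e_le k
  have hz' : z ∈ closedBall (w k) (ra k) := by
    refine (convex_closedBall (w k) (ra k)).segment_subset ?_ ?_ hz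
    · rw [mem_closedBall_iff_norm, left_norm]
      unfold ra
      positivity
    · rw [mem_closedBall_iff_norm]
      exact hb.trans (rt_le_ra k)
  rw [mem_closedBall_iff_norm] at hz'
  refine ⟨?_, hz'⟩
  rw [segment_eq_image'] at hz
  obtain ⟨s, ⟨hs0, hs1⟩, rfl⟩ := hz
  set z : ℂ := w k - (ra k : ℂ) + s • (b - (w k - (ra k : ℂ))) with hzdef
  have h1 := F_G (hb.trans (rt_le_ra k))
  have h2 := F_G hz'
  rw [hF] at h1
  -- the deviation
  have h3 : F z - (w (k + 1) - (((1 - s) * ra k + s * rb (k + 1) : ℝ) : ℂ)) =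
      (F z - (z + 10 * Complex.I)) - (s : ℂ) * (w (k + 1) - (rb (k + 1) : ℂ) - (b + 10 * Complex.I)) := by
    rw [hzdef, w_succ]
    simp only [Complex.real_smul]
    push_cast
    ring
  have h4 : ‖F z - (w (k + 1) - (((1 - s) * ra k + s * rb (k + 1) : ℝ) : ℂ))‖ ≤ 2 * e k := by
    rw [h3]
    refine (norm_sub_le _ _).trans ?_
    rw [norm_mul, Complex.norm_real, Real.norm_of_nonneg hs0]
    have h5 : s * ‖w (k + 1) - (rb (k + 1) : ℂ) - (b + 10 * Complex.I)‖ ≤ 1 * e k := by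
      gcongr
    linarith
  set ρ : ℝ := (1 - s) * ra k + s * rb (k + 1) with hρ
  have h5 : rb (k + 1) ≤ ρ := by
    have : rb (k + 1) ≤ ra k := by
      unfold rb ra
      rw [u_succ]
      linarith
    nlinarith
  have h6 := Complex.abs_re_le_norm (F z - (w (k + 1) - (ρ : ℂ)))
  have h7 := Complex.abs_im_le_norm (F z - (w (k + 1) - (ρ : ℂ)))
  rw [Complex.sub_re, (left_pt (k + 1) ρ).2] at h6
  rw [Complex.sub_im, (left_pt (k + 1) ρ).1] at h7
  have h8 := (le_abs_self ((F z).re - (3 - ρ))).trans h6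
  unfold rb at h5
  rw [u_succ] at h5
  apply At_of_F
  apply Q_At
  refine Q_of_near (k := k + 1) (by linarith) (by linarith) ?_ ?_
  · have h9 := re_le (F z) (k + 1)
    have h10 := neg_abs_le ((F z).re - 3)
    unfold rr
    rw [u_succ]
    linarith
  · rintro ⟨h9, -⟩
    unfold rm at h9
    have := u_pos (k + 1)
    linarith

theorem rt_le_rd (k : ℕ) : rt k ≤ rd k := by
  have := u_pos k
  unfold rt rd
  linarith

theorem ra_le_rd (k : ℕ) : ra k ≤ rd k := by
  have := u_pos k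
  unfold ra rd
  linarith

theorem rb_le_rd (k : ℕ) : rb k ≤ rd k := by
  have := u_pos k
  unfold rb rd
  linarith

/-- pull back of a connection -/
theorem pull {k : ℕ} {x : ℂ} (hx : Cn (k + 1) x) :
    ∃ y, Cn k y ∧ F y = x ∧ ‖y - w k‖ ≤ rt k := by
  obtain ⟨C, hC, hCA, hCd, hC0, hCx⟩ := hx
  have hu := u_pos k
  have hex : ∀ a : ℂ, ‖a - w (k + 1)‖ ≤ rd (k + 1) → ∃ b, ‖b - w k‖ ≤ rt k ∧ F b = a :=
    fun a ha => exists_pre ha
  choose! ψ hψ1 hψ2 using hex
  have hψc : ContinuousOn ψ C := by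
    have : LipschitzOnWith 2 ψ C := by
      refine LipschitzOnWith.of_dist_le_mul ?_
      intro a ha a' ha'
      rw [dist_eq_norm, dist_eq_norm]
      have := near_iso' (hψ1 a (hCd a ha)) (hψ1 a' (hCd a' ha'))
      rw [hψ2 a (hCd a ha), hψ2 a' (hCd a' ha')] at this
      exact this
    exact this.continuousOn
  set A1 : ℂ := w k - (rb k : ℂ) with hA1
  set A2 : ℂ := w k - (ra k : ℂ) with hA2
  set y0 : ℂ := ψ (w (k + 1) - rb (k + 1)) with hy0
  refine ⟨ψ x, ⟨(segment ℝ A1 A2 ∪ segment ℝ A2 y0) ∪ ψ '' C, ?_, ?_, ?_, ?_, ?_⟩,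
    hψ2 x (hCd x hCx), hψ1 x (hCd x hCx)⟩
  · refine IsPreconnected.union y0 ?_ ?_ ?_ ?_
    · right; exact right_mem_segment _ _ _
    · exact ⟨_, hC0, rfl⟩
    · refine IsPreconnected.union A2 (right_mem_segment _ _ _) (left_mem_segment _ _ _) ?_ ?_
      · exact (convex_segment _ _).isPreconnected
      · exact (convex_segment _ _).isPreconnected
    · exact hC.image _ hψc
  · rintro z ((hz | hz) | hz)
    · obtain ⟨ρ, h1, -, rfl⟩ := left_seg k _ _ z hz
      apply left_At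
      refine le_trans ?_ h1
      apply le_min
      · unfold ra rb; linarith
      · exact le_rfl
    · exact (bridge k y0 (hψ1 _ (hCd _ hC0)) (hψ2 _ (hCd _ hC0)) z hz).1
    · obtain ⟨a, ha, rfl⟩ := hz
      apply At_of_F
      rw [hψ2 a (hCd a ha)]
      exact hCA ha
  · rintro z ((hz | hz) | hz)
    · obtain ⟨ρ, h1, h2, rfl⟩ := left_seg k _ _ z hz
      have h3 : 0 ≤ ρ := by
        refine le_trans ?_ h1
        apply le_min
        · unfold rb; positivity
        · unfold ra; positivity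
      rw [left_norm k ρ h3]
      exact h2.trans (max_le (rb_le_rd k) (ra_le_rd k))
    · exact (bridge k y0 (hψ1 _ (hCd _ hC0)) (hψ2 _ (hCd _ hC0)) z hz).2.trans (ra_le_rd k)
    · obtain ⟨a, ha, rfl⟩ := hz
      exact (hψ1 a (hCd a ha)).trans (rt_le_rd k)
  · left; left; exact left_mem_segment _ _ _
  · right; exact ⟨x, hCx, rfl⟩

/-- connection at level zero gives membership in the component -/
theorem Cn_zero {x : ℂ} (hx : Cn 0 x) : x ∈ U := by
  obtain ⟨C, hC, hCA, hCd, hC0, hCx⟩ := hx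
  have hu := u_pos 0
  have hu' := u_le 0
  have hsub : (C ∪ segment ℝ (w 0 - (rb 0 : ℂ)) (w 0 - ((3 : ℝ) : ℂ))) ∪ {z : ℂ | z.re < 1} ⊆ U := by
    refine sub_U ?_ ?_ ?_
    · refine IsPreconnected.union (w 0 - ((3 : ℝ) : ℂ)) ?_ ?_ ?_ ?_
      · right; exact right_mem_segment _ _ _
      · show (w 0 - ((3 : ℝ) : ℂ)).re < 1
        rw [(left_pt 0 3).2]
        norm_num
      · refine IsPreconnected.union (w 0 - (rb 0 : ℂ)) hC0 (left_mem_segment _ _ _) hC ?_
        exact (convex_segment _ _).isPreconnected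
      · exact (convex_halfSpace_re_lt 1).isPreconnected
    · right
      show (0 : ℂ).re < 1
      norm_num
    · rintro z ((hz | hz) | hz)
      · exact hCA hz
      · obtain ⟨ρ, h1, -, rfl⟩ := left_seg 0 _ _ z hz
        apply left_At
        refine le_trans ?_ h1
        apply le_min
        · unfold ra rb; linarith
        · unfold ra; linarith
      · apply Q_At
        apply Q_of_re
        have : z.re < 1 := hz
        linarith
  exact hsub (Or.inl (Or.inl hCx))

/-- pull back to level zero -/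
theorem chain (k : ℕ) : ∀ x : ℂ, Cn k x →
    ∃ y, y ∈ U ∧ F^[k] y = x ∧ ∀ j, j < k → ‖F^[j] y - w j‖ ≤ rt j := by
  induction k with
  | zero =>
    intro x hx
    exact ⟨x, Cn_zero hx, rfl, fun j hj => absurd hj (by omega)⟩
  | succ k ih =>
    intro x hx
    obtain ⟨y, hy1, hy2, hy3⟩ := pull hx
    obtain ⟨v, hv1, hv2, hv3⟩ := ih y hy1
    refine ⟨v, hv1, ?_, ?_⟩
    · rw [Function.iterate_succ_apply', hv2, hy2]
    · intro j hj
      rcases Nat.lt_succ_iff_lt_or_eq.1 hj with h | h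
      · exact hv3 j h
      · rw [h, hv2]
        exact hy3

theorem iter_dist (k : ℕ) {a b : ℂ} (ha : ∀ j, j < k → ‖F^[j] a - w j‖ ≤ rt j)
    (hb : ∀ j, j < k → ‖F^[j] b - w j‖ ≤ rt j) : ‖a - b‖ ≤ 2 ^ k * ‖F^[k] a - F^[k] b‖ := by
  induction k with
  | zero => simp
  | succ k ih =>
    have h1 := ih (fun j hj => ha j (by omega)) (fun j hj => hb j (by omega))
    have h2 := near_iso' (ha k (by omega)) (hb k (by omega))
    rw [Function.iterate_succ_apply', Function.iterate_succ_apply', pow_succ]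
    calc ‖a - b‖ ≤ 2 ^ k * ‖F^[k] a - F^[k] b‖ := h1
      _ ≤ 2 ^ k * (2 * ‖F (F^[k] a) - F (F^[k] b)‖) := by gcongr
      _ = _ := by ring

end Pool.Agent.W723.WL
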