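import Pool.Agent.W723.WL.Step

/-!
The recursion and the limit function.
-/

set_option autoImplicit false

open Filter Topology Metric Set

namespace Pool.Agent.W723.WL

noncomputable def eps (k : ℕ) : ℝ := e k - e (k + 1)

theorem eps_pos (k : ℕ) : 0 < eps k := sub_pos.2 (e_lt_succ k)

/-- the increment -/
noncomputable def inc (k : ℕ) (f : {f : ℂ → ℂ // Differentiable ℂ f}) : ℂ → ℂ :=
  Classical.choose (step k f.1 f.2 (eps k) (eps_pos k))

theorem inc_spec (k : ℕ) (f : {f : ℂ → ℂ // Differentiable ℂ f}) :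
    Differentiable ℂ (inc k f) ∧ (∀ z ∈ Y k, ‖inc k f z‖ < eps k) ∧
      (∀ z ∈ G k, ‖f.1 z + inc k f z - (z + 10 * Complex.I)‖ < eps k) ∧
      (∀ z ∈ J k, ∃ q ∈ segment ℝ (f.1 (bk k)) (⟨0, H (k + 1)⟩ : ℂ) ∪
        segment ℝ (⟨0, H (k + 1)⟩ : ℂ) (w (k + 1) - ra k), ‖f.1 z + inc k f z - q‖ < eps k) :=
  Classical.choose_spec (step k f.1 f.2 (eps k) (eps_pos k))

noncomputable def fs : ℕ → {f : ℂ → ℂ // Differentiable ℂ f}
  | 0 => ⟨fun _ => 0, differentiable_const _⟩
  | k + 1 => ⟨fun z => (fs k).1 z + inc k (fs k) z, (fs k).2.add (inc_spec k (fs k)).1⟩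

noncomputable def ff (k : ℕ) : ℂ → ℂ := (fs k).1
noncomputable def gg (k : ℕ) : ℂ → ℂ := inc k (fs k)

theorem ff_zero (z : ℂ) : ff 0 z = 0 := rfl
theorem ff_succ (k : ℕ) (z : ℂ) : ff (k + 1) z = ff k z + gg k z := rfl
theorem gg_diff (k : ℕ) : Differentiable ℂ (gg k) := (inc_spec k (fs k)).1
theorem gg_Y {k : ℕ} {z : ℂ} (hz : z ∈ Y k) : ‖gg k z‖ < eps k := (inc_spec k (fs k)).2.1 z hz
theorem ff_G {k : ℕ} {z : ℂ} (hz : z ∈ G k) : ‖ff (k + 1) z - (z + 10 * Complex.I)‖ < eps k :=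
  (inc_spec k (fs k)).2.2.1 z hz
theorem ff_J {k : ℕ} {z : ℂ} (hz : z ∈ J k) : ∃ q ∈ segment ℝ (ff k (bk k)) (⟨0, H (k + 1)⟩ : ℂ) ∪
        segment ℝ (⟨0, H (k + 1)⟩ : ℂ) (w (k + 1) - ra k), ‖ff (k + 1) z - q‖ < eps k :=
  (inc_spec k (fs k)).2.2.2 z hz

theorem ff_eq_sum (k : ℕ) (z : ℂ) : ff k z = ∑ j ∈ Finset.range k, gg j z := by
  induction k with
  | zero => simp [ff_zero]
  | succ k ih => rw [ff_succ, Finset.sum_range_succ, ih]

/-- the function -/
noncomputable def F (z : ℂ) : ℂ := ∑' j, gg j z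

theorem ff_diff_bound {k : ℕ} {z : ℂ} (hz : ∀ j, k ≤ j → z ∈ Y j) (n : ℕ) :
    ‖ff (k + n) z - ff k z‖ ≤ e k - e (k + n) := by
  induction n with
  | zero => simp
  | succ n ih =>
    have h1 := gg_Y (hz (k + n) (by omega))
    rw [← add_assoc, ff_succ]
    unfold eps at h1
    calc ‖ff (k + n) z + gg (k + n) z - ff k z‖ = ‖(ff (k + n) z - ff k z) + gg (k + n) z‖ := by
          congr 1; ring
      _ ≤ ‖ff (k + n) z - ff k z‖ + ‖gg (k + n) z‖ := norm_add_le _ _
      _ ≤ _ := by linarith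

theorem summable_eps : Summable eps := by
  have h1 : ∀ k, eps k ≤ (1 / 4 : ℝ) ^ k := by
    intro k
    have h2 := e_pos (k + 1)
    have h3 := e_le k
    have h4 := u_eq k
    have h5 := u_pos k
    unfold eps
    linarith
  exact Summable.of_nonneg_of_le (fun k => (eps_pos k).le) h1
    (summable_geometric_of_lt_one (by norm_num) (by norm_num))

theorem mem_Y_of_norm {z : ℂ} {j : ℕ} (h : ‖z‖ ≤ j) : z ∈ Y j := by
  have h1 := Complex.abs_re_le_norm z
  have h2 := Complex.abs_im_le_norm z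
  have h3 := le_abs_self z.re
  have h4 : (0 : ℝ) ≤ j := Nat.cast_nonneg j
  exact B_subset_Y le_rfl (by linarith) (by linarith)

theorem summable_gg (z : ℂ) : Summable fun j => gg j z := by
  obtain ⟨N, hN⟩ := exists_nat_ge ‖z‖
  rw [← summable_nat_add_iff N]
  refine Summable.of_norm_bounded (g := fun j => eps (j + N)) ?_ ?_
  · exact (summable_nat_add_iff N).2 summable_eps
  · intro j
    refine (gg_Y (mem_Y_of_norm (hN.trans ?_))).le
    push_cast
    have : (0 : ℝ) ≤ j := Nat.cast_nonneg j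
    linarith

theorem tendsto_ff (z : ℂ) : Tendsto (fun k => ff k z) atTop (𝓝 (F z)) := by
  have := (summable_gg z).hasSum.tendsto_sum_nat
  simp only [← ff_eq_sum] at this
  exact this

theorem F_bound {k : ℕ} {z : ℂ} (hz : ∀ j, k ≤ j → z ∈ Y j) : ‖F z - ff k z‖ ≤ e k := by
  have h1 : Tendsto (fun n => ‖ff (k + n) z - ff k z‖) atTop (𝓝 ‖F z - ff k z‖) := by
    refine Tendsto.norm (Tendsto.sub_const ?_ _)
    have := (tendsto_ff z).comp (tendsto_add_atTop_nat k)
    simpa only [Function.comp_def, add_comm] using this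
  refine le_of_tendsto' h1 fun n => ?_
  have := ff_diff_bound hz n
  have h2 := e_pos (k + n)
  linarith

theorem F_diff : Differentiable ℂ F := by
  intro z
  obtain ⟨N, hN⟩ := exists_nat_gt ‖z‖
  have h1 : DifferentiableOn ℂ (fun z => ∑' j, gg (j + N) z) (ball (0 : ℂ) N) := by
    refine Complex.differentiableOn_tsum_of_summable_norm (u := fun j => eps (j + N)) ?_ ?_ isOpen_ball ?_
    · exact (summable_nat_add_iff N).2 summable_eps
    · intro j
      exact (gg_diff _).differentiableOn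
    · intro j y hy
      rw [mem_ball_zero_iff] at hy
      refine (gg_Y (mem_Y_of_norm (hy.le.trans ?_))).le
      push_cast
      have : (0 : ℝ) ≤ j := Nat.cast_nonneg j
      linarith
  have h2 : F = fun z => (∑ j ∈ Finset.range N, gg j z) + ∑' j, gg (j + N) z := by
    funext y
    exact ((summable_gg y).sum_add_tsum_nat_add N).symm
  rw [h2]
  have h3 : z ∈ ball (0 : ℂ) N := by rw [mem_ball_zero_iff]; exact hN
  refine DifferentiableAt.add ?_ ((h1 z h3).differentiableAt (isOpen_ball.mem_nhds h3))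
  exact DifferentiableAt.fun_sum fun j _ => gg_diff j z

theorem F_Q {z : ℂ} (hz : z ∈ Q) : ‖F z‖ ≤ 1 / 800 := by
  have h1 := F_bound (k := 0) (z := z) fun j _ => Q_subset_Y j hz
  rw [ff_zero, sub_zero] at h1
  exact h1.trans (e_le' 0)

theorem F_G {k : ℕ} {z : ℂ} (hz : ‖z - w k‖ ≤ ra k) : ‖F z - (z + 10 * Complex.I)‖ ≤ e k := by
  have h1 := F_bound (k := k + 1) (z := z) fun j hj => near_Y (k := k) (by omega)
    (hz.trans (ra_lt_rr k).le)
  have h2 := ff_G (k := k) (z := z) hz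
  unfold eps at h2
  calc ‖F z - (z + 10 * Complex.I)‖ = ‖(F z - ff (k + 1) z) + (ff (k + 1) z - (z + 10 * Complex.I))‖ := by
        congr 1; ring
    _ ≤ _ := norm_add_le _ _
    _ ≤ e k := by linarith

theorem ff_bk (k : ℕ) : ‖ff k (bk k)‖ ≤ 1 / 800 := by
  have h1 := ff_diff_bound (k := 0) (z := bk k) (fun j _ => bk_mem_Y k j) k
  rw [ff_zero, sub_zero, zero_add] at h1
  have h2 := e_le' 0
  have h3 := e_pos k
  linarith

theorem F_J {k : ℕ} {z : ℂ} (hz : z ∈ J k) : F z ∈ Q := by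
  have hu := u_pos k
  have hu' := u_le k
  have he := e_le k
  have he' := e_le' k
  have he0 := e_pos k
  obtain ⟨q, hq, h2⟩ := ff_J hz
  have h1 := F_bound (k := k + 1) (z := z) fun j hj => near_Y (k := k) (by omega) (J_norm' hz).2
  have h3 : ‖F z - q‖ ≤ e k := by
    unfold eps at h2
    calc ‖F z - q‖ = ‖(F z - ff (k + 1) z) + (ff (k + 1) z - q)‖ := by congr 1; ring
      _ ≤ _ := norm_add_le _ _
      _ ≤ e k := by linarith
  have h4 := Complex.abs_re_le_norm (F z - q)
  have h5 := Complex.abs_im_le_norm (F z - q)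
  simp only [Complex.sub_re, Complex.sub_im] at h4 h5
  have h6 := le_abs_self ((F z).re - q.re)
  rcases hq with hq | hq
  · -- first leg
    apply Q_of_re
    rw [segment_eq_image'] at hq
    obtain ⟨s, ⟨hs0, hs1⟩, rfl⟩ := hq
    have h7 := ff_bk k
    have h8 := Complex.abs_re_le_norm (ff k (bk k))
    have h9 := le_abs_self (ff k (bk k)).re
    have h10 : (ff k (bk k) + s • ((⟨0, H (k + 1)⟩ : ℂ) - ff k (bk k))).re =
        (1 - s) * (ff k (bk k)).re := by
      simp only [Complex.add_re, Complex.real_smul, Complex.mul_re, Complex.ofReal_re,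
        Complex.sub_re, Complex.ofReal_im, Complex.sub_im, zero_mul, sub_zero]
      ring
    rw [h10] at h6 h4
    have h11 : (1 - s) * (ff k (bk k)).re ≤ (1 - s) * (1 / 800) :=
      mul_le_mul_of_nonneg_left (by linarith) (by linarith)
    have h12 : (1 - s) * (1 / 800 : ℝ) ≤ 1 / 800 := by nlinarith
    linarith
  · -- second leg
    rw [segment_eq_image'] at hq
    obtain ⟨s, ⟨hs0, hs1⟩, rfl⟩ := hq
    have h10 : ((⟨0, H (k + 1)⟩ : ℂ) + s • (w (k + 1) - (ra k : ℂ) - (⟨0, H (k + 1)⟩ : ℂ))).re =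
        s * (3 - ra k) := by
      simp only [Complex.add_re, Complex.real_smul, Complex.mul_re, Complex.ofReal_re,
        Complex.sub_re, Complex.ofReal_im, Complex.sub_im, zero_mul, sub_zero, w_re, zero_add]
    have h11 : ((⟨0, H (k + 1)⟩ : ℂ) + s • (w (k + 1) - (ra k : ℂ) - (⟨0, H (k + 1)⟩ : ℂ))).im =
        H (k + 1) := by
      simp only [Complex.add_im, Complex.real_smul, Complex.mul_im, Complex.ofReal_re,
        Complex.sub_re, Complex.ofReal_im, Complex.sub_im, zero_mul, sub_zero, w_im, w_re,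
        add_zero, sub_self, mul_zero]
    rw [h10] at h4 h6
    rw [h11] at h5
    have h12 : s * (3 - ra k) ≤ 3 - ra k := by
      have : 0 ≤ 3 - ra k := by unfold ra; linarith
      nlinarith
    have h13 : (F z).re ≤ 3 - ra k + e k := by linarith
    refine Q_of_near (k := k + 1) (by linarith) ?_ ?_ ?_
    · unfold ra at h13; linarith
    · have h14 := re_le (F z) (k + 1)
      have h15 := neg_abs_le ((F z).re - 3)
      unfold rr
      rw [u_succ]
      unfold ra at h13
      linarith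
    · rintro ⟨h14, -⟩
      have := u_pos (k + 1)
      unfold rm at h14
      unfold ra at h13
      linarith

theorem F_not_poly : ¬ ∃ p : Polynomial ℂ, ∀ z, F z = p.eval z := by
  rintro ⟨p, hp⟩
  have hb : ∀ x : ℝ, 0 ≤ x → ‖p.eval (-(x : ℂ))‖ ≤ 1 / 800 := by
    intro x hx
    rw [← hp]
    refine F_Q (Q_of_re ?_)
    simp only [Complex.neg_re, Complex.ofReal_re]
    linarith
  have hdeg : p.degree ≤ 0 := by
    by_contra hcon
    push Not at hcon
    have h1 : Tendsto (fun x : ℝ => ‖(-(x : ℂ))‖) atTop atTop := by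
      have : (fun x : ℝ => ‖(-(x : ℂ))‖) = fun x : ℝ => |x| := by
        funext x
        rw [norm_neg, Complex.norm_real, Real.norm_eq_abs]
      rw [this]
      exact tendsto_abs_atTop_atTop
    have h2 := p.tendsto_norm_atTop hcon h1
    have h3 := (h2.eventually (eventually_gt_atTop (1 : ℝ))).and (eventually_ge_atTop (0 : ℝ))
    obtain ⟨x, hx1, hx2⟩ := h3.exists
    have := hb x hx2
    linarith
  rw [Polynomial.eq_C_of_degree_le_zero hdeg] at hp
  simp only [Polynomial.eval_C] at hp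
  have h1 := F_G (k := 0) (z := w 0) (by
    rw [sub_self, norm_zero]
    have := u_pos 0
    unfold ra
    positivity)
  have h2 := hb 0 le_rfl
  have h3 : F 0 = F (w 0) := by rw [hp, hp]
  have h4 : ‖F 0‖ ≤ 1 / 800 := F_Q (Q_of_re (by norm_num))
  rw [← h3] at h1
  have h5 := Complex.abs_im_le_norm (F 0 - (w 0 + 10 * Complex.I))
  have h6 := Complex.abs_im_le_norm (F 0)
  have h7 := e_le' 0
  have h8 := H_ge 0
  have h9 : (F 0 - (w 0 + 10 * Complex.I)).im = (F 0).im - (H 0 + 10) := by simp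
  rw [h9] at h5
  have h10 := neg_abs_le ((F 0).im - (H 0 + 10))
  have h11 := le_abs_self (F 0).im
  linarith

end Pool.Agent.W723.WL
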