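import Pool.Agent.W723.WL.Conn
import Pool.Agent.W723.WL.Appr

/-!
The approximation step.
-/

set_option autoImplicit false

open Filter Topology Metric Set

namespace Pool.Agent.W723.WL

/-- broken line through three points -/
noncomputable def gam (p0 p1 p2 : ℂ) (s : ℝ) : ℂ :=
  p0 + ((min (2 * s) 1 : ℝ) : ℂ) * (p1 - p0) + ((max (2 * s - 1) 0 : ℝ) : ℂ) * (p2 - p1)

theorem gam_cont (p0 p1 p2 : ℂ) : Continuous (gam p0 p1 p2) := by
  unfold gam
  refine Continuous.add (Continuous.add continuous_const (Continuous.mul ?_ continuous_const))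
    (Continuous.mul ?_ continuous_const)
  · exact Complex.continuous_ofReal.comp (by fun_prop)
  · exact Complex.continuous_ofReal.comp (by fun_prop)

theorem gam_zero (p0 p1 p2 : ℂ) : gam p0 p1 p2 0 = p0 := by
  unfold gam
  norm_num

theorem gam_one (p0 p1 p2 : ℂ) : gam p0 p1 p2 1 = p2 := by
  unfold gam
  norm_num

theorem gam_mem (p0 p1 p2 : ℂ) (s : ℝ) (h0 : 0 ≤ s) (h1 : s ≤ 1) :
    gam p0 p1 p2 s ∈ segment ℝ p0 p1 ∪ segment ℝ p1 p2 := by
  rcases le_total s (1 / 2) with h | h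
  · left
    rw [segment_eq_image']
    refine ⟨2 * s, ⟨by linarith, by linarith⟩, ?_⟩
    unfold gam
    rw [min_eq_left (by linarith), max_eq_right (by linarith)]
    simp
  · right
    rw [segment_eq_image']
    refine ⟨2 * s - 1, ⟨by linarith, by linarith⟩, ?_⟩
    unfold gam
    rw [min_eq_right (by linarith), max_eq_left (by linarith)]
    simp

noncomputable def lam (k : ℕ) (z : ℂ) : ℝ := min 1 ((rr k - ‖z - w k‖) / (rr k - ra k))

theorem lam_cont (k : ℕ) : Continuous (lam k) := by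
  unfold lam
  exact continuous_const.min ((continuous_const.sub (continuous_id.sub continuous_const).norm).div_const _)

theorem lam_G {k : ℕ} {z : ℂ} (hz : ‖z - w k‖ ≤ ra k) : lam k z = 1 := by
  unfold lam
  have h := ra_lt_rr k
  rw [min_eq_left]
  rw [le_div_iff₀ (by linarith)]
  linarith

theorem lam_J {k : ℕ} {z : ℂ} (hz : z ∈ J k) : lam k z = (rr k - ‖z - w k‖) / (rr k - ra k) := by
  unfold lam
  have h := ra_lt_rr k
  rw [min_eq_right]
  rw [div_le_one (by linarith)]
  have := (J_norm' hz).1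
  linarith

noncomputable def hh (k : ℕ) (p0 p1 p2 : ℂ) (z : ℂ) : ℂ :=
  z + gam p0 p1 p2 (lam k z) - (w k - rr k + lam k z * ((rr k : ℂ) - ra k))

theorem hh_cont (k : ℕ) (p0 p1 p2 : ℂ) : Continuous (hh k p0 p1 p2) := by
  unfold hh
  refine Continuous.sub (continuous_id.add ((gam_cont _ _ _).comp (lam_cont k))) ?_
  exact continuous_const.add ((Complex.continuous_ofReal.comp (lam_cont k)).mul continuous_const)

theorem hh_G {k : ℕ} {p0 p1 p2 : ℂ} (hp : p2 = w k - ra k + 10 * Complex.I) {z : ℂ}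
    (hz : ‖z - w k‖ ≤ ra k) : hh k p0 p1 p2 z = z + 10 * Complex.I := by
  unfold hh
  rw [lam_G hz, gam_one, hp]
  push_cast
  ring

theorem hh_J {k : ℕ} {p0 p1 p2 : ℂ} {z : ℂ}
    (hz : z ∈ J k) : hh k p0 p1 p2 z = gam p0 p1 p2 (lam k z) := by
  unfold hh
  have h := ra_lt_rr k
  have h2 : z = w k - ((‖z - w k‖ : ℝ) : ℂ) := by
    have h3 := J_norm hz
    rw [h3]
    apply Complex.ext
    · simp
    · simp [hz.1]
  have h4 : (lam k z : ℂ) * ((rr k : ℂ) - ra k) = ((rr k - ‖z - w k‖ : ℝ) : ℂ) := by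
    rw [lam_J hz, ← Complex.ofReal_sub, ← Complex.ofReal_mul, div_mul_cancel₀]
    linarith
  rw [h4]
  have h5 : w k - (rr k : ℂ) + ((rr k - ‖z - w k‖ : ℝ) : ℂ) = z := by
    conv_rhs => rw [h2]
    push_cast
    ring
  rw [h5]
  ring

theorem lam_J_mem {k : ℕ} {z : ℂ} (hz : z ∈ J k) : 0 ≤ lam k z ∧ lam k z ≤ 1 := by
  have h := ra_lt_rr k
  refine ⟨?_, min_le_left _ _⟩
  rw [lam_J hz]
  apply div_nonneg
  · linarith [(J_norm' hz).2]
  · linarith

theorem interior_Xs {k : ℕ} {z : ℂ} (hz : z ∈ interior (Xs k)) :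
    ‖z - w k‖ < ra k ∨ rr k < ‖z - w k‖ := by
  by_contra hcon
  push Not at hcon
  obtain ⟨h1, h2⟩ := hcon
  have hu := u_pos k
  have hra : 0 < ra k := by unfold ra; positivity
  have hlt := ra_lt_rr k
  -- a point in the interior, strictly between
  obtain ⟨z', hz', h3, h4⟩ : ∃ z' ∈ interior (Xs k), ra k < ‖z' - w k‖ ∧ ‖z' - w k‖ < rr k := by
    set φ : ℝ → ℂ := fun s => w k + (s : ℂ) * (z - w k) with hφ
    have hφc : Continuous φ := by
      rw [hφ]
      fun_prop
    have hφ1 : φ 1 = z := by simp [hφ]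
    have hφn : ∀ s : ℝ, 0 ≤ s → ‖φ s - w k‖ = s * ‖z - w k‖ := by
      intro s hs
      simp only [hφ]
      rw [add_sub_cancel_left, norm_mul, Complex.norm_real, Real.norm_of_nonneg hs]
    have ev : ∀ᶠ s in 𝓝 (1 : ℝ), φ s ∈ interior (Xs k) := by
      refine hφc.continuousAt.eventually (isOpen_interior.mem_nhds ?_)
      rw [hφ1]
      exact hz
    have ev0 : ∀ᶠ s in 𝓝 (1 : ℝ), 0 ≤ s := by
      filter_upwards [lt_mem_nhds (show (0 : ℝ) < 1 by norm_num)] with s hs using hs.le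
    have hmul : Continuous fun s : ℝ => s * ‖z - w k‖ := by fun_prop
    rcases lt_or_eq_of_le h2 with h5 | h5
    · have e1 : ∀ᶠ s in 𝓝 (1 : ℝ), s * ‖z - w k‖ < rr k :=
        hmul.continuousAt.eventually (gt_mem_nhds (by simpa using h5))
      have e2 : ∀ᶠ s in 𝓝[>] (1 : ℝ), (1 : ℝ) < s := eventually_mem_nhdsWithin
      obtain ⟨s, hs1, hs2, hs3, hs4⟩ :=
        (e2.and ((ev.filter_mono nhdsWithin_le_nhds).and
          ((ev0.filter_mono nhdsWithin_le_nhds).and (e1.filter_mono nhdsWithin_le_nhds)))).exists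
      refine ⟨φ s, hs2, ?_, ?_⟩
      · rw [hφn s hs3]
        nlinarith
      · rw [hφn s hs3]
        exact hs4
    · have e1 : ∀ᶠ s in 𝓝 (1 : ℝ), ra k < s * ‖z - w k‖ :=
        hmul.continuousAt.eventually (lt_mem_nhds (by
          show ra k < 1 * ‖z - w k‖
          rw [one_mul, h5]; exact hlt))
      have e2 : ∀ᶠ s in 𝓝[<] (1 : ℝ), s < (1 : ℝ) := eventually_mem_nhdsWithin
      obtain ⟨s, hs1, hs2, hs3, hs4⟩ :=
        (e2.and ((ev.filter_mono nhdsWithin_le_nhds).and
          ((ev0.filter_mono nhdsWithin_le_nhds).and (e1.filter_mono nhdsWithin_le_nhds)))).exists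
      refine ⟨φ s, hs2, ?_, ?_⟩
      · rw [hφn s hs3]
        exact hs4
      · rw [hφn s hs3, h5]
        nlinarith
  -- the open set
  have hJ : ∀ y ∈ interior (Xs k), ra k < ‖y - w k‖ → ‖y - w k‖ < rr k → y.im = H k := by
    intro y hy h5 h6
    rcases interior_subset hy with h7 | h7 | h7
    · exact absurd h7 (not_Y_of_lt h6)
    · exact h7.1
    · have : ‖y - w k‖ ≤ ra k := h7
      linarith
  set ψ : ℝ → ℂ := fun s => z' + (s : ℂ) * Complex.I with hψ
  have hψc : Continuous ψ := by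
    rw [hψ]
    fun_prop
  have hψ0 : ψ 0 = z' := by simp [hψ]
  have a1 : ∀ᶠ s in 𝓝 (0 : ℝ), ψ s ∈ interior (Xs k) := by
    refine hψc.continuousAt.eventually (isOpen_interior.mem_nhds ?_)
    rw [hψ0]
    exact hz'
  have hnc : Continuous fun s : ℝ => ‖ψ s - w k‖ := (hψc.sub continuous_const).norm
  have a2 : ∀ᶠ s in 𝓝 (0 : ℝ), ra k < ‖ψ s - w k‖ :=
    hnc.continuousAt.eventually (lt_mem_nhds (by
      show ra k < ‖ψ 0 - w k‖
      rw [hψ0]; exact h3))
  have a3 : ∀ᶠ s in 𝓝 (0 : ℝ), ‖ψ s - w k‖ < rr k :=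
    hnc.continuousAt.eventually (gt_mem_nhds (by
      show ‖ψ 0 - w k‖ < rr k
      rw [hψ0]; exact h4))
  have a4 : ∀ᶠ s in 𝓝[>] (0 : ℝ), (0 : ℝ) < s := eventually_mem_nhdsWithin
  obtain ⟨s, hs1, hs2, hs3, hs4⟩ :=
    (a4.and ((a1.filter_mono nhdsWithin_le_nhds).and
      ((a2.filter_mono nhdsWithin_le_nhds).and (a3.filter_mono nhdsWithin_le_nhds)))).exists
  have b1 := hJ _ hs2 hs3 hs4
  have b2 := hJ _ hz' h3 h4
  simp only [hψ, Complex.add_im, Complex.mul_im, Complex.ofReal_re, Complex.I_im, mul_one,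
    Complex.ofReal_im, Complex.I_re, mul_zero, add_zero] at b1
  linarith

theorem step (k : ℕ) (f : ℂ → ℂ) (hf : Differentiable ℂ f) (ε : ℝ) (hε : 0 < ε) :
    ∃ g : ℂ → ℂ, Differentiable ℂ g ∧ (∀ z ∈ Y k, ‖g z‖ < ε) ∧
      (∀ z ∈ G k, ‖f z + g z - (z + 10 * Complex.I)‖ < ε) ∧
      (∀ z ∈ J k, ∃ q ∈ segment ℝ (f (bk k)) (⟨0, H (k + 1)⟩ : ℂ) ∪
        segment ℝ (⟨0, H (k + 1)⟩ : ℂ) (w (k + 1) - ra k), ‖f z + g z - q‖ < ε) := by
  classical
  set p0 : ℂ := f (bk k) with hp0
  set p1 : ℂ := ⟨0, H (k + 1)⟩ with hp1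
  set p2 : ℂ := w (k + 1) - ra k with hp2
  have hp2' : p2 = w k - ra k + 10 * Complex.I := by
    rw [hp2, w_succ]
    ring
  have hu := u_pos k
  have hu' := u_le k
  set t : ℂ → ℂ := fun z => if z ∈ Y k then 0 else hh k p0 p1 p2 z - f z with ht
  have tY : ∀ z ∈ Y k, t z = 0 := fun z hz => by simp [ht, hz]
  have tGJ : ∀ z ∈ J k ∪ G k, t z = hh k p0 p1 p2 z - f z := by
    intro z hz
    by_cases hY : z ∈ Y k
    · rw [tY z hY]
      have h1 := eq_bk hz hY
      have h2 : z ∈ J k := by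
        rcases hz with hz | hz
        · exact hz
        · exfalso
          have := G_rr hz
          exact not_Y_of_lt this hY
      rw [hh_J h2]
      have h3 : lam k z = 0 := by
        rw [lam_J h2, h1, bk_norm]
        simp
      rw [h3, gam_zero, h1, hp0]
      ring
    · simp [ht, hY]
  have hc1 : ContinuousOn t (Y k) := (continuousOn_const (c := (0 : ℂ))).congr tY
  have hc2 : ContinuousOn t (J k ∪ G k) := by
    refine ContinuousOn.congr ?_ tGJ
    exact ((hh_cont k p0 p1 p2).sub hf.continuous).continuousOn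
  have hc : ContinuousOn t (Xs k) :=
    hc1.union_of_isClosed hc2 (isClosed_Y k) ((isClosed_J k).union (isClosed_G k))
  have hd : DifferentiableOn ℂ t (interior (Xs k)) := by
    intro z hz
    rcases interior_Xs hz with h1 | h1
    · have ev : t =ᶠ[𝓝 z] fun z => z + 10 * Complex.I - f z := by
        have : ∀ᶠ y in 𝓝 z, ‖y - w k‖ < ra k :=
          ((continuous_id.sub continuous_const).norm.continuousAt).eventually (gt_mem_nhds h1)
        filter_upwards [this] with y hy
        rw [tGJ y (Or.inr hy.le), hh_G hp2' hy.le]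
      refine (ev.differentiableAt_iff.2 ?_).differentiableWithinAt
      exact (differentiableAt_id.add (differentiableAt_const _)).sub (hf z)
    · have ev : t =ᶠ[𝓝 z] fun _ => 0 := by
        have : ∀ᶠ y in 𝓝 z, rr k < ‖y - w k‖ :=
          ((continuous_id.sub continuous_const).norm.continuousAt).eventually (lt_mem_nhds h1)
        filter_upwards [this, isOpen_interior.mem_nhds hz] with y hy hy2
        rcases interior_subset hy2 with h3 | h3
        · exact tY y h3
        · have := GJ_rr h3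
          linarith
      exact (ev.differentiableAt_iff.2 (differentiableAt_const _)).differentiableWithinAt
  obtain ⟨g, hg1, hg2⟩ := appr (Xs k) (isClosed_Xs k) (Ak k) (fun z hz => Xs_re hz) (compl_conn k)
    t hc hd (‖w k‖ + 3) (by
      rintro z (hz | hz) hn
      · exact tY z hz
      · exfalso
        have h1 := GJ_rr hz
        have h2 : ‖z‖ ≤ ‖z - w k‖ + ‖w k‖ := by
          calc ‖z‖ = ‖(z - w k) + w k‖ := by congr 1; ring
            _ ≤ _ := norm_add_le _ _
        unfold rr at h1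
        linarith) ε hε
  refine ⟨g, hg1, ?_, ?_, ?_⟩
  · intro z hz
    have := hg2 z (Or.inl hz)
    rwa [tY z hz, sub_zero] at this
  · intro z hz
    have := hg2 z (Or.inr (Or.inr hz))
    rw [tGJ z (Or.inr hz), hh_G hp2' hz] at this
    convert this using 2
    ring
  · intro z hz
    refine ⟨gam p0 p1 p2 (lam k z), gam_mem _ _ _ _ (lam_J_mem hz).1 (lam_J_mem hz).2, ?_⟩
    have := hg2 z (Or.inr (Or.inl hz))
    rw [tGJ z (Or.inl hz), hh_J hz] at this
    convert this using 2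
    ring

end Pool.Agent.W723.WL
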